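import Pool.Agent.Work.MP_b10815_sym.Sym
import Pool.Agent.Work.MP_b10815_co_flat.Upper
import Pool.Agent.Work.MP_b10815_co_flat.Vertex

set_option autoImplicit false

namespace Pool.Agent.Work.MP_b10815_sym

open Pool.Agent.Work.MP_b10815_co Pool.Agent.Work.MP_b10815_co_flat
open scoped Pointwise Topology

/-- `K` is invariant under the changes of sign of the blocks of a partition of the coordinates
into blocks of size at most `b` (`β i` is the block of the coordinate `i`). -/
def BlockUncond {d : ℕ} (b : ℕ) (K : Set (Fin d → ℝ)) : Prop :=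
  ∃ β : Fin d → Fin d, (∀ j, (Finset.univ.filter (fun i => β i = j)).card ≤ b) ∧
    ∀ x ∈ K, ∀ j, (fun i => if β i = j then -x i else x i) ∈ K

section

variable {d : ℕ} {β : Fin d → Fin d} {K : Set (Fin d → ℝ)}

lemma bl_zero (hflip : ∀ x ∈ K, ∀ j, (fun i => if β i = j then -x i else x i) ∈ K)
    (hK : Convex ℝ K) {x : Fin d → ℝ} (hx : x ∈ K) (s : Finset (Fin d)) :
    (fun i => if β i ∈ s then 0 else x i) ∈ K := by
  classical
  induction s using Finset.induction_on with
  | empty => simpa using hx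
  | insert j s hj ih =>
    have h1 := hflip _ ih j
    have h2 := hK ih h1 (by norm_num : (0 : ℝ) ≤ 1 / 2) (by norm_num : (0 : ℝ) ≤ 1 / 2) (by norm_num)
    convert h2 using 1
    ext i
    by_cases hi : β i = j
    · simp only [hi, Finset.mem_insert_self, if_true, Pi.add_apply, Pi.smul_apply, smul_eq_mul]
      rw [if_neg hj]
      ring
    · by_cases hs : β i ∈ s
      · simp [hi, hs]
      · simp only [Finset.mem_insert, hi, hs, or_self, if_false, Pi.add_apply, Pi.smul_apply,
          smul_eq_mul]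
        ring

lemma bl_keep (hflip : ∀ x ∈ K, ∀ j, (fun i => if β i = j then -x i else x i) ∈ K)
    (hK : Convex ℝ K) {x : Fin d → ℝ} (hx : x ∈ K) (j : Fin d) :
    (fun i => if β i = j then x i else 0) ∈ K := by
  classical
  have h := bl_zero hflip hK hx (Finset.univ.erase j)
  convert h using 1
  ext i
  by_cases hi : β i = j
  · simp [hi]
  · simp [hi]

lemma bl_neg (hflip : ∀ x ∈ K, ∀ j, (fun i => if β i = j then -x i else x i) ∈ K)
    {x : Fin d → ℝ} (hx : x ∈ K) : -x ∈ K := by
  classical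
  have key : ∀ s : Finset (Fin d), (fun i => if β i ∈ s then -x i else x i) ∈ K := by
    intro s
    induction s using Finset.induction_on with
    | empty => simpa using hx
    | insert j s hj ih =>
      have h1 := hflip _ ih j
      convert h1 using 1
      ext i
      by_cases hi : β i = j
      · simp [hi, hj]
      · simp [hi]
  have h := key Finset.univ
  simp only [Finset.mem_univ, if_true] at h
  exact h

lemma bl_zero_interior (hflip : ∀ x ∈ K, ∀ j, (fun i => if β i = j then -x i else x i) ∈ K)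
    (hK : Convex ℝ K) (hi : (interior K).Nonempty) : (0 : Fin d → ℝ) ∈ interior K := by
  obtain ⟨x, hx⟩ := hi
  have hx' : -x ∈ interior K := by
    refine interior_maximal (s := K) (t := -interior K) ?_ isOpen_interior.neg (by simpa using hx)
    intro y hy
    rw [Set.mem_neg] at hy
    simpa using bl_neg hflip (interior_subset hy)
  have h := hK.interior hx hx' (by norm_num : (0 : ℝ) ≤ 1 / 2) (by norm_num : (0 : ℝ) ≤ 1 / 2)
    (by norm_num)
  simpa using h

/-- The norm of the block `j` of an integer vector. -/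
noncomputable def gb (β : Fin d → Fin d) (K : Set (Fin d → ℝ)) (j : Fin d) (z : Fin d → ℤ) : ℝ :=
  gauge K (fun i => if β i = j then (z i : ℝ) else 0)

lemma gb_nonneg (j : Fin d) (z : Fin d → ℤ) : 0 ≤ gb β K j z := gauge_nonneg _

lemma gb_congr (j : Fin d) {z z' : Fin d → ℤ} (h : ∀ i, β i = j → z i = z' i) :
    gb β K j z = gb β K j z' := by
  rw [gb, gb]
  congr 1
  ext i
  split_ifs with hi
  · rw [h i hi]
  · rfl

lemma gb_zero (j : Fin d) {z : Fin d → ℤ} (h : ∀ i, β i = j → z i = 0) : gb β K j z = 0 := by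
  have : gb β K j z = gb β K j 0 := gb_congr j (fun i hi => by rw [h i hi]; rfl)
  rw [this, gb]
  have h2 : (fun i => if β i = j then (((0 : Fin d → ℤ) i : ℤ) : ℝ) else 0) = (0 : Fin d → ℝ) := by
    ext i; simp
  rw [h2, gauge_zero]

/-- One block. -/
lemma block_cover (hK : Convex ℝ K) (hc : IsCompact K) (h0 : (0 : Fin d → ℝ) ∈ interior K)
    (j : Fin d) (hj : ∃ i, β i = j) {F W : ℝ}
    (hF : FlatnessBound (Finset.univ.filter (fun i => β i = j)).card F)
    (hW : ∀ a : Fin d → ℤ, (∀ i, β i ≠ j → a i = 0) → a ≠ 0 → ∃ x ∈ K, ∃ y ∈ K,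
      (∀ i, β i ≠ j → x i = 0) ∧ (∀ i, β i ≠ j → y i = 0) ∧
      W < (∑ i, (a i : ℝ) * x i) - (∑ i, (a i : ℝ) * y i))
    {t : ℝ} (ht : 0 < t) {ι : Type} (S : Finset ι) (u : ι → Fin d → ℝ) (b : ι → ℝ)
    (hu : ∀ s ∈ S, ∃ i, β i = j ∧ u s i ≠ 0)
    (hcov : ∀ z : Fin d → ℤ, (∀ i, β i ≠ j → z i = 0) → gb β K j z ≤ t →
      ∃ s ∈ S, ∑ i, u s i * z i = b s) :
    t * W < (S.card + 1) * F := by
  classical
  set B := Finset.univ.filter (fun i => β i = j) with hB
  have hmemB : ∀ i, i ∈ B ↔ β i = j := by intro i; simp [hB]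
  set n := B.card with hn
  have hn1 : 1 ≤ n := by
    obtain ⟨i, hi⟩ := hj
    exact Finset.card_pos.2 ⟨i, (hmemB i).2 hi⟩
  let e : B ≃ Fin n := B.equivFin
  -- extension by zero
  let E : (Fin n → ℝ) →ₗ[ℝ] (Fin d → ℝ) :=
    { toFun := fun y i => if h : i ∈ B then y (e ⟨i, h⟩) else 0
      map_add' := by
        intro x y; ext i; by_cases h : i ∈ B <;> simp [h]
      map_smul' := by
        intro c x; ext i; by_cases h : i ∈ B <;> simp [h] }
  have hE : ∀ (y : Fin n → ℝ) (i : Fin d) (h : i ∈ B), E y i = y (e ⟨i, h⟩) := by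
    intro y i h; simp only [E, LinearMap.coe_mk, AddHom.coe_mk, dif_pos h]
  have hE0 : ∀ (y : Fin n → ℝ) (i : Fin d), i ∉ B → E y i = 0 := by
    intro y i h; simp only [E, LinearMap.coe_mk, AddHom.coe_mk, dif_neg h]
  have hEsym : ∀ (y : Fin n → ℝ) (k : Fin n), E y (e.symm k) = y k := by
    intro y k
    rw [hE y _ (e.symm k).2]
    simp
  have hEinj : Function.Injective E := by
    intro x y h
    ext k
    rw [← hEsym x k, ← hEsym y k, h]
  have hEcont : Continuous E := LinearMap.continuous_of_finiteDimensional E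
  have hsum : ∀ (v : Fin d → ℝ) (y : Fin n → ℝ), ∑ i, v i * E y i = ∑ k, v (e.symm k) * y k := by
    intro v y
    rw [← Finset.sum_subset (Finset.subset_univ B) (fun i _ hi => by rw [hE0 y i hi, mul_zero]),
      ← Finset.sum_coe_sort B (fun i => v i * E y i), ← Equiv.sum_comp e.symm]
    refine Finset.sum_congr rfl fun k _ => ?_
    rw [hEsym]
  set K' : Set (Fin n → ℝ) := E ⁻¹' (t • K) with hK'
  have hconv : Convex ℝ K' := (hK.smul t).linear_preimage E
  have hcomp : IsCompact K' :=
    (LinearMap.isClosedEmbedding_of_injective (LinearMap.ker_eq_bot.2 hEinj)).isCompact_preimage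
      (hc.smul t)
  have hint : (interior K').Nonempty := by
    refine ⟨0, interior_maximal (s := K') (t := E ⁻¹' (t • interior K))
      (Set.preimage_mono (Set.smul_set_mono interior_subset))
      ((isOpen_interior.smul₀ ht.ne').preimage hEcont) ?_⟩
    rw [Set.mem_preimage, map_zero]
    exact ⟨0, h0, smul_zero t⟩
  -- the cover
  let f : Fin S.card ≃ S := S.equivFin.symm
  have hcovK' : CoveredBy (integerPoints K') S.card := by
    refine ⟨fun l k => u (f l) (e.symm k), fun l => b (f l), fun l h0' => ?_, ?_⟩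
    · obtain ⟨i, hi, hui⟩ := hu (f l) (f l).2
      apply hui
      have := congrFun h0' (e ⟨i, (hmemB i).2 hi⟩)
      simpa using this
    · rintro y ⟨hy, hyi⟩
      choose m hm using hyi
      have hz : (fun i => (((if h : i ∈ B then m (e ⟨i, h⟩) else 0 : ℤ)) : ℝ)) = E y := by
        ext i
        by_cases h : i ∈ B
        · rw [hE y i h, hm]; simp [h]
        · rw [hE0 y i h]; simp [h]
      obtain ⟨s, hs, hsb⟩ := hcov (fun i => if h : i ∈ B then m (e ⟨i, h⟩) else 0) (by
        intro i hi
        rw [dif_neg (fun h => hi ((hmemB i).1 h))]) (by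
        rw [gb]
        have : (fun i => if β i = j then (((if h : i ∈ B then m (e ⟨i, h⟩) else 0 : ℤ)) : ℝ) else 0)
            = E y := by
          rw [← hz]
          ext i
          by_cases hi : β i = j
          · rw [if_pos hi]
          · rw [if_neg hi, dif_neg (fun h => hi ((hmemB i).1 h))]; simp
        rw [this]
        exact gauge_le_of_mem ht.le hy)
      refine Set.mem_iUnion.2 ⟨f.symm ⟨s, hs⟩, ?_⟩
      rw [hyperplane, Set.mem_ofPred_eq]
      simp only [Equiv.apply_symm_apply]
      rw [← hsum (u s) y, ← hz]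
      exact hsb
  obtain ⟨a', ha', hwid⟩ := exists_width_le hn1 hF hconv hcomp hint hcovK'
  set a : Fin d → ℤ := fun i => if h : i ∈ B then a' (e ⟨i, h⟩) else 0 with ha
  have haE : (fun i => (a i : ℝ)) = E (fun k => (a' k : ℝ)) := by
    ext i
    by_cases h : i ∈ B
    · rw [hE _ i h]; simp [ha, h]
    · rw [hE0 _ i h]; simp [ha, h]
  have ha0 : a ≠ 0 := by
    intro h
    apply ha'
    ext k
    have := congrFun h (e.symm k)
    simpa [ha] using this
  obtain ⟨x, hx, y, hy, hx0, hy0, hxy⟩ := hW a (fun i hi => by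
    rw [ha]; simp only []; rw [dif_neg (fun h => hi ((hmemB i).1 h))]) ha0
  have hres : ∀ x : Fin d → ℝ, (∀ i, β i ≠ j → x i = 0) →
      E (fun k => t * x (e.symm k)) = t • x := by
    intro x hx0
    ext i
    by_cases h : i ∈ B
    · rw [hE _ i h]; simp
    · rw [hE0 _ i h, Pi.smul_apply, hx0 i (fun hi => h ((hmemB i).2 hi)), smul_zero]
  have hmem : ∀ x ∈ K, (∀ i, β i ≠ j → x i = 0) → (fun k => t * x (e.symm k)) ∈ K' := by
    intro x hx hx0
    rw [hK', Set.mem_preimage, hres x hx0]
    exact Set.smul_mem_smul_set hx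
  have h1 := hwid _ (hmem x hx hx0) _ (hmem y hy hy0)
  have hval : ∀ x : Fin d → ℝ, (∀ i, β i ≠ j → x i = 0) →
      ∑ k, (a' k : ℝ) * (t * x (e.symm k)) = t * ∑ i, (a i : ℝ) * x i := by
    intro x hx0
    have h2 := hsum (fun i => (a i : ℝ)) (fun k => t * x (e.symm k))
    rw [hres x hx0] at h2
    have h3 : ∀ k, (a (e.symm k) : ℝ) = a' k := by
      intro k
      have := congrFun haE (e.symm k)
      rw [this, hEsym]
    simp only [h3] at h2
    rw [← h2, Finset.mul_sum]
    refine Finset.sum_congr rfl fun i _ => ?_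
    rw [Pi.smul_apply, smul_eq_mul]
    ring
  rw [hval x hx0, hval y hy0, ← mul_sub] at h1
  calc t * W < t * ((∑ i, (a i : ℝ) * x i) - (∑ i, (a i : ℝ) * y i)) :=
        mul_lt_mul_of_pos_left hxy ht
    _ ≤ _ := h1

end

end Pool.Agent.Work.MP_b10815_sym
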