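import Pool.Agent.Work.MP_b10815_sym.Uncond

set_option autoImplicit false

namespace Pool.Agent.Work.MP_b10815_sym

open Pool.Agent.Work.MP_b10815_co

/-- The linear image of a cross-polytope. -/
def body {d : ℕ} (ω : Fin d → ℝ) (L : (Fin d → ℝ) →ₗ[ℝ] (Fin d → ℝ)) : Set (Fin d → ℝ) :=
  {x | ∑ i, ω i * |L x i| ≤ 1}

variable {d : ℕ} {ω : Fin d → ℝ} {L : (Fin d → ℝ) →ₗ[ℝ] (Fin d → ℝ)}

lemma body_symm : Symm (body ω L) := by
  intro x hx
  simp only [body, Set.mem_ofPred_eq, map_neg, Pi.neg_apply, abs_neg] at hx ⊢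
  exact hx

lemma body_convex (hω : ∀ i, 0 < ω i) : Convex ℝ (body ω L) := by
  intro x hx y hy a b ha hb hab
  simp only [body, Set.mem_ofPred_eq, map_add, map_smul, Pi.add_apply, Pi.smul_apply,
    smul_eq_mul] at hx hy ⊢
  calc ∑ i, ω i * |a * L x i + b * L y i|
      ≤ ∑ i, (a * (ω i * |L x i|) + b * (ω i * |L y i|)) := by
        refine Finset.sum_le_sum fun i _ => ?_
        have h1 : |a * L x i + b * L y i| ≤ a * |L x i| + b * |L y i| := by
          refine (abs_add_le _ _).trans ?_
          rw [abs_mul, abs_mul, abs_of_nonneg ha, abs_of_nonneg hb]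
        have := mul_le_mul_of_nonneg_left h1 (hω i).le
        linarith
    _ = a * ∑ i, ω i * |L x i| + b * ∑ i, ω i * |L y i| := by
        rw [Finset.sum_add_distrib, Finset.mul_sum, Finset.mul_sum]
    _ ≤ a * 1 + b * 1 := by
        gcongr
    _ = 1 := by linarith

lemma continuous_gauge : Continuous (fun x : Fin d → ℝ => ∑ i, ω i * |L x i|) := by
  have hL : Continuous L := LinearMap.continuous_of_finiteDimensional L
  exact continuous_finsetSum _ fun i _ =>
    continuous_const.mul ((continuous_apply i).comp hL).abs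

lemma body_compact (hω : ∀ i, 0 < ω i) (hL : Function.Injective L) : IsCompact (body ω L) := by
  have hemb := LinearMap.isClosedEmbedding_of_injective (LinearMap.ker_eq_bot.2 hL)
  have : body ω L = L ⁻¹' (body ω LinearMap.id) := by
    ext x; simp [body]
  rw [this]
  refine hemb.isCompact_preimage ?_
  have hcl : IsClosed (body ω (LinearMap.id : (Fin d → ℝ) →ₗ[ℝ] (Fin d → ℝ))) :=
    isClosed_le continuous_gauge continuous_const
  refine Metric.isCompact_of_isClosed_isBounded hcl ?_
  refine (Metric.isBounded_closedBall (x := (0 : Fin d → ℝ)) (r := ∑ i, 1 / ω i)).subset ?_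
  intro x hx
  rw [mem_closedBall_zero_iff, pi_norm_le_iff_of_nonneg
    (Finset.sum_nonneg fun i _ => (one_div_pos.2 (hω i)).le)]
  intro i
  simp only [body, Set.mem_ofPred_eq, LinearMap.id_coe, id_eq] at hx
  have h1 : ω i * |x i| ≤ 1 := (Finset.single_le_sum (f := fun i => ω i * |x i|)
    (fun i _ => mul_nonneg (hω i).le (abs_nonneg _)) (Finset.mem_univ i)).trans hx
  have h2 : |x i| ≤ 1 / ω i := by
    rw [le_div_iff₀ (hω i)]; linarith
  rw [Real.norm_eq_abs]
  exact h2.trans (Finset.single_le_sum (f := fun i => 1 / ω i)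
    (fun i _ => (one_div_pos.2 (hω i)).le) (Finset.mem_univ i))

lemma body_interior : (interior (body ω L)).Nonempty := by
  have hopen : IsOpen {x : Fin d → ℝ | ∑ i, ω i * |L x i| < 1} :=
    isOpen_lt continuous_gauge continuous_const
  refine ⟨0, interior_maximal (s := body ω L) (t := {x : Fin d → ℝ | ∑ i, ω i * |L x i| < 1})
    (fun x hx => ?_) hopen ?_⟩
  · rw [Set.mem_ofPred_eq] at hx
    rw [body, Set.mem_ofPred_eq]
    exact hx.le
  · simp

/-! ### Sharpness for unconditional bodies -/

/-- In dimension `d ≥ 1` every constant admissible for unconditional bodies is `≥ 2 - 1 / d`. -/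
theorem uncond_lower (d : ℕ) (hd : 1 ≤ d) (c : ℝ) (hc : AdmissibleFor d Uncond c) :
    2 - 1 / (d : ℝ) ≤ c := by
  classical
  have hdR : (1 : ℝ) ≤ d := by exact_mod_cast hd
  have hr : (0 : ℝ) < d - 1 / 2 := by linarith
  set ω : Fin d → ℝ := fun _ => 1 / (d - 1 / 2) with hωdef
  have hω : ∀ i, 0 < ω i := fun i => one_div_pos.2 hr
  have hmem : ∀ x : Fin d → ℝ, x ∈ body ω LinearMap.id ↔ ∑ i, |x i| ≤ d - 1 / 2 := by
    intro x
    simp only [body, Set.mem_ofPred_eq, LinearMap.id_coe, id_eq, hωdef]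
    rw [← Finset.mul_sum, one_div, inv_mul_le_iff₀ hr, mul_one]
  obtain ⟨M, hM, hpar⟩ := hc.2 (body ω LinearMap.id) (by
    intro x hx i
    rw [hmem] at hx ⊢
    convert hx using 2 with j
    by_cases hj : j = i
    · subst hj; simp
    · rw [Function.update_of_ne hj]) (body_convex hω) (body_compact hω Function.injective_id)
    body_interior d hd ⟨fun j => Pi.single j 1, fun _ => 0, by
      intro j h0
      have := congrFun h0 j
      simp at this, by
      intro x hx
      obtain ⟨hxK, hxi⟩ := hx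
      rw [hmem] at hxK
      choose z hz using hxi
      by_contra hcon
      rw [Set.mem_iUnion] at hcon
      push Not at hcon
      have h1 : ∀ i, (1 : ℝ) ≤ |x i| := by
        intro i
        have h2 := hcon i
        simp only [hyperplane, Set.mem_ofPred_eq] at h2
        rw [Finset.sum_eq_single i (fun j _ hj => by rw [Pi.single_eq_of_ne hj, zero_mul])
          (fun h => absurd (Finset.mem_univ i) h), Pi.single_eq_same, one_mul, hz i] at h2
        rw [hz i]
        have h3 : z i ≠ 0 := by exact_mod_cast h2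
        have h4 : (1 : ℤ) ≤ |z i| := Int.one_le_abs h3
        exact_mod_cast h4
      have h5 : (d : ℝ) ≤ ∑ i, |x i| := by
        calc (d : ℝ) = ∑ _i : Fin d, (1 : ℝ) := by simp
          _ ≤ _ := Finset.sum_le_sum fun i _ => h1 i
      linarith⟩
  have h1 : 2 * (d - 1) + 1 ≤ M := by
    refine card_le_of_parallel hpar (d - 1) ?_
    intro v hv
    obtain ⟨i, hi⟩ := Function.ne_iff.1 hv
    rw [Pi.zero_apply] at hi
    have hsum : ∀ t : ℝ, ∑ j, v j * (Pi.single i t : Fin d → ℝ) j = v i * t := by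
      intro t
      rw [Finset.sum_eq_single i (fun j _ hj => by rw [Pi.single_eq_of_ne hj, mul_zero])
          (fun h => absurd (Finset.mem_univ i) h), Pi.single_eq_same]
    refine ⟨fun k => Pi.single i (k : ℝ), fun k hk => ⟨?_, fun j => ?_⟩, fun k l _ _ hkl => ?_⟩
    · rw [hmem]
      simp only []
      rw [Finset.sum_eq_single i (fun j _ hj => by rw [Pi.single_eq_of_ne hj, abs_zero])
          (fun h => absurd (Finset.mem_univ i) h), Pi.single_eq_same]
      have : (|k| : ℝ) ≤ ((d - 1 : ℕ) : ℝ) := by exact_mod_cast hk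
      rw [Nat.cast_sub hd] at this
      push_cast at this
      linarith
    · by_cases hj : j = i
      · subst hj; exact ⟨k, by simp⟩
      · exact ⟨0, by simp [hj]⟩
    · rw [hsum, hsum] at hkl
      exact_mod_cast mul_left_cancel₀ hi hkl
  have h2 : 2 * (d : ℝ) - 1 ≤ M := by
    have : 2 * d ≤ M + 1 := by omega
    have : 2 * (d : ℝ) ≤ M + 1 := by exact_mod_cast this
    linarith
  have hd0 : (0 : ℝ) < d := by linarith
  have : 2 - 1 / (d : ℝ) = (2 * d - 1) / d := by field_simp
  rw [this, div_le_iff₀ hd0]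
  linarith

/-- The exact value for unconditional bodies. -/
theorem uncond_exact (d : ℕ) (hd : 1 ≤ d) (c : ℝ) :
    AdmissibleFor d Uncond c ↔ 2 - 1 / (d : ℝ) ≤ c := by
  refine ⟨uncond_lower d hd c, fun h => ?_⟩
  have hdR : (1 : ℝ) ≤ d := by exact_mod_cast hd
  have h1 : (1 : ℝ) ≤ 2 - 1 / d := by
    have : 1 / (d : ℝ) ≤ 1 := by rw [div_le_one (by linarith)]; exact hdR
    linarith
  refine ⟨by linarith, fun K hU hK hc hi N _ hN => ?_⟩
  obtain ⟨M, hM, hp⟩ := uncond_upper d hd K hU hK hc (hi.mono interior_subset) N hN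
  exact ⟨M, hM.trans (mul_le_mul_of_nonneg_right h (Nat.cast_nonneg N)), hp⟩

end Pool.Agent.Work.MP_b10815_sym
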