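import Pool.Agent.Work.MP_b10815_sym.Defs

set_option autoImplicit false

namespace Pool.Agent.Work.MP_b10815_sym

open Pool.Agent.Work.MP_b10815_co

/-- The distance of `a j / q` to the integers, summed over `j < q`. -/
noncomputable def cs (q : ℕ) (a : ℤ) : ℝ :=
  ∑ j ∈ Finset.range q, ‖(((a : ℝ) * j / q : ℝ) : UnitAddCircle)‖

lemma half_norm : ‖(((1 / 2 : ℝ)) : UnitAddCircle)‖ = 1 / 2 := by
  have := AddCircle.norm_half_period_eq (1 : ℝ)
  simpa using this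

/-- Two points of the circle whose difference is almost `1/2`, from below. -/
lemma pair_lower (x h : ℝ) : 1 / 2 - |h - 1 / 2| ≤
    ‖((x : ℝ) : UnitAddCircle)‖ + ‖((x + h : ℝ) : UnitAddCircle)‖ := by
  have h1 : (((1 / 2 : ℝ)) : UnitAddCircle) =
      ((x + h : ℝ) : UnitAddCircle) - ((x : ℝ) : UnitAddCircle) - ((h - 1 / 2 : ℝ) : UnitAddCircle) := by
    rw [← AddCircle.coe_sub, ← AddCircle.coe_sub]
    congr 1
    ring
  have h2 : ‖((h - 1 / 2 : ℝ) : UnitAddCircle)‖ ≤ |h - 1 / 2| := by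
    rw [UnitAddCircle.norm_eq]
    have := round_le (h - 1 / 2) 0
    simpa using this
  have h3 : (1 / 2 : ℝ) ≤ ‖((x + h : ℝ) : UnitAddCircle)‖ + ‖((x : ℝ) : UnitAddCircle)‖ +
      ‖((h - 1 / 2 : ℝ) : UnitAddCircle)‖ := by
    calc (1 / 2 : ℝ) = ‖(((1 / 2 : ℝ)) : UnitAddCircle)‖ := half_norm.symm
      _ = _ := congrArg norm h1
      _ ≤ ‖((x + h : ℝ) : UnitAddCircle) - ((x : ℝ) : UnitAddCircle)‖ +
          ‖((h - 1 / 2 : ℝ) : UnitAddCircle)‖ := norm_sub_le _ _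
      _ ≤ _ := by
        have := norm_sub_le ((x + h : ℝ) : UnitAddCircle) ((x : ℝ) : UnitAddCircle)
        linarith
  linarith

lemma norm_add_half (x : ℝ) : ‖((x + 1 / 2 : ℝ) : UnitAddCircle)‖ ≤ 1 / 2 - ‖((x : ℝ) : UnitAddCircle)‖ := by
  rw [UnitAddCircle.norm_eq, UnitAddCircle.norm_eq]
  set r := round x
  have h1 : |x - r| ≤ 1 / 2 := abs_sub_round x
  rcases le_total 0 (x - r) with h | h
  · have := round_le (x + 1 / 2) (r + 1)
    refine this.trans ?_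
    push_cast
    rw [abs_of_nonneg h] at h1 ⊢
    rw [show x + 1 / 2 - (r + 1 : ℝ) = (x - r) - 1 / 2 by ring, abs_of_nonpos (by linarith)]
    linarith
  · have := round_le (x + 1 / 2) r
    refine this.trans ?_
    rw [abs_of_nonpos h] at h1 ⊢
    rw [show x + 1 / 2 - (r : ℝ) = (x - r) + 1 / 2 by ring, abs_of_nonneg (by linarith)]
    linarith

/-- Two points of the circle whose difference is almost `1/2`, from above. -/
lemma pair_upper (x h : ℝ) : ‖((x : ℝ) : UnitAddCircle)‖ + ‖((x + h : ℝ) : UnitAddCircle)‖ ≤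
    1 / 2 + |h - 1 / 2| := by
  have h1 : ((x + h : ℝ) : UnitAddCircle) =
      ((x + 1 / 2 : ℝ) : UnitAddCircle) + ((h - 1 / 2 : ℝ) : UnitAddCircle) := by
    rw [← AddCircle.coe_add]
    congr 1
    ring
  have h2 : ‖((h - 1 / 2 : ℝ) : UnitAddCircle)‖ ≤ |h - 1 / 2| := by
    rw [UnitAddCircle.norm_eq]
    have := round_le (h - 1 / 2) 0
    simpa using this
  have h3 := norm_add_half x
  rw [h1]
  have := norm_add_le ((x + 1 / 2 : ℝ) : UnitAddCircle) ((h - 1 / 2 : ℝ) : UnitAddCircle)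
  linarith

/-- Shift invariance of the sum. -/
lemma cs_shift (q : ℕ) (hq : 1 ≤ q) (a c : ℤ) :
    ∑ j ∈ Finset.range q, ‖(((a : ℝ) * j / q + a * c / q : ℝ) : UnitAddCircle)‖ = cs q a := by
  have _ : NeZero q := ⟨by omega⟩
  have hq0 : (q : ℝ) ≠ 0 := by exact_mod_cast (by omega : q ≠ 0)
  have key : ∀ f : ZMod q → ℝ, ∑ j ∈ Finset.range q, f (j : ZMod q) = ∑ i : ZMod q, f i := by
    intro f
    refine Finset.sum_nbij' (fun j : ℕ => (j : ZMod q)) (fun i => i.val) ?_ ?_ ?_ ?_ ?_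
    · intro j _; exact Finset.mem_univ _
    · intro i _; exact Finset.mem_range.2 (ZMod.val_lt i)
    · intro j hj; exact ZMod.val_cast_of_lt (Finset.mem_range.1 hj)
    · intro i _; exact ZMod.natCast_zmod_val i
    · intro j _; rfl
  have h1 : ∀ z : ℤ, (ZMod.toAddCircle (z : ZMod q)) = (((z : ℝ) / q : ℝ) : UnitAddCircle) := fun z => by
    rw [ZMod.toAddCircle_intCast]
  have hL : ∑ j ∈ Finset.range q, ‖(((a : ℝ) * j / q + a * c / q : ℝ) : UnitAddCircle)‖ =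
      ∑ i : ZMod q, ‖ZMod.toAddCircle ((a : ZMod q) * (i + (c : ZMod q)))‖ := by
    rw [← key (fun i => ‖ZMod.toAddCircle ((a : ZMod q) * (i + (c : ZMod q)))‖)]
    refine Finset.sum_congr rfl fun j _ => ?_
    have : (a : ZMod q) * ((j : ZMod q) + (c : ZMod q)) = ((a * (j + c) : ℤ) : ZMod q) := by push_cast; ring
    rw [this, h1]
    congr 2
    push_cast
    ring
  have hR : cs q a = ∑ i : ZMod q, ‖ZMod.toAddCircle ((a : ZMod q) * i)‖ := by
    rw [cs, ← key (fun i => ‖ZMod.toAddCircle ((a : ZMod q) * i)‖)]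
    refine Finset.sum_congr rfl fun j _ => ?_
    have : (a : ZMod q) * (j : ZMod q) = ((a * j : ℤ) : ZMod q) := by push_cast; ring
    rw [this, h1]
    congr 2
    push_cast
    ring
  rw [hL, hR]
  exact Fintype.sum_equiv (Equiv.addRight (c : ZMod q)) _ _ (fun i => rfl)

lemma cs_lower' (q : ℕ) (hq : 1 ≤ q) (a c : ℤ) :
    (q : ℝ) * (1 / 2 - |(a : ℝ) * c / q - 1 / 2|) ≤ 2 * cs q a := by
  have h := Finset.sum_le_sum (s := Finset.range q) (fun j _ => pair_lower ((a : ℝ) * j / q) ((a : ℝ) * c / q))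
  rw [Finset.sum_const, Finset.card_range, nsmul_eq_mul, Finset.sum_add_distrib, cs_shift q hq a c] at h
  have : ∑ j ∈ Finset.range q, ‖(((a : ℝ) * j / q : ℝ) : UnitAddCircle)‖ = cs q a := rfl
  rw [this] at h
  linarith

lemma cs_upper' (q : ℕ) (hq : 1 ≤ q) (a c : ℤ) :
    2 * cs q a ≤ (q : ℝ) * (1 / 2 + |(a : ℝ) * c / q - 1 / 2|) := by
  have h := Finset.sum_le_sum (s := Finset.range q) (fun j _ => pair_upper ((a : ℝ) * j / q) ((a : ℝ) * c / q))
  rw [Finset.sum_const, Finset.card_range, nsmul_eq_mul, Finset.sum_add_distrib, cs_shift q hq a c] at h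
  have : ∑ j ∈ Finset.range q, ‖(((a : ℝ) * j / q : ℝ) : UnitAddCircle)‖ = cs q a := rfl
  rw [this] at h
  linarith

/-- A good shift. -/
lemma exists_shift (q : ℕ) (hq : 1 ≤ q) (a : ℤ) (ha : a ≠ 0) :
    ∃ c : ℤ, |(a : ℝ) * c / q - 1 / 2| ≤ |(a : ℝ)| / (2 * q) := by
  have hqR : (0 : ℝ) < q := by exact_mod_cast hq
  have haR : (a : ℝ) ≠ 0 := by exact_mod_cast ha
  refine ⟨round ((q : ℝ) / (2 * a)), ?_⟩
  have h1 := abs_sub_round ((q : ℝ) / (2 * a))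
  have h2 : (a : ℝ) * round ((q : ℝ) / (2 * a)) / q - 1 / 2 =
      -((a : ℝ) / q * ((q : ℝ) / (2 * a) - round ((q : ℝ) / (2 * a)))) := by
    field_simp
    ring
  rw [h2, abs_neg, abs_mul, abs_div, abs_of_pos hqR]
  calc |(a : ℝ)| / q * |(q : ℝ) / (2 * a) - round ((q : ℝ) / (2 * a))|
      ≤ |(a : ℝ)| / q * (1 / 2) := by gcongr
    _ = |(a : ℝ)| / (2 * q) := by field_simp

lemma cs_lower (q : ℕ) (hq : 1 ≤ q) (a : ℤ) (ha : a ≠ 0) : ((q : ℝ) - |(a : ℝ)|) / 4 ≤ cs q a := by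
  have hqR : (0 : ℝ) < q := by exact_mod_cast hq
  obtain ⟨c, hc⟩ := exists_shift q hq a ha
  have h1 := cs_lower' q hq a c
  have h2 : (q : ℝ) * |(a : ℝ) * c / q - 1 / 2| ≤ |(a : ℝ)| / 2 := by
    calc (q : ℝ) * |(a : ℝ) * c / q - 1 / 2| ≤ q * (|(a : ℝ)| / (2 * q)) := by gcongr
      _ = |(a : ℝ)| / 2 := by field_simp
  linarith

/-- `cs q a ≤ (q + |a|) / 4`, and `≤ q / 4` if `q = 2 |a|`. -/
lemma cs_upper (q : ℕ) (hq : 1 ≤ q) (a : ℤ) : cs q a ≤ ((q : ℝ) + |(a : ℝ)|) / 4 := by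
  have hqR : (0 : ℝ) < q := by exact_mod_cast hq
  rcases eq_or_ne a 0 with rfl | ha
  · have : cs q 0 = 0 := by
      simp [cs]
    rw [this]; positivity
  obtain ⟨c, hc⟩ := exists_shift q hq a ha
  have h1 := cs_upper' q hq a c
  have h2 : (q : ℝ) * |(a : ℝ) * c / q - 1 / 2| ≤ |(a : ℝ)| / 2 := by
    calc (q : ℝ) * |(a : ℝ) * c / q - 1 / 2| ≤ q * (|(a : ℝ)| / (2 * q)) := by gcongr
      _ = |(a : ℝ)| / 2 := by field_simp
  linarith

lemma cs_upper_half (q : ℕ) (hq : 1 ≤ q) (a : ℤ) (h : 2 * |a| = q) : cs q a ≤ (q : ℝ) / 4 := by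
  have hqR : (0 : ℝ) < q := by exact_mod_cast hq
  obtain ⟨c, hc⟩ : ∃ c : ℤ, 2 * (a * c) = q := by
    rcases abs_cases a with ⟨h1, _⟩ | ⟨h1, _⟩
    · exact ⟨1, by rw [← h, h1]; ring⟩
    · exact ⟨-1, by rw [← h, h1]; ring⟩
  have h1 := cs_upper' q hq a c
  have h2 : (a : ℝ) * c / q - 1 / 2 = 0 := by
    have h3 : 2 * ((a : ℝ) * c) = q := by exact_mod_cast hc
    have h4 : (a : ℝ) * c = q / 2 := by linarith
    rw [h4]
    field_simp
    ring
  rw [h2, abs_zero, add_zero] at h1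
  linarith

end Pool.Agent.Work.MP_b10815_sym
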