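import Pool.Agent.Work.MP_b10815_sym.Defs

set_option autoImplicit false

namespace Pool.Agent.Work.MP_b10815_sym

open Pool.Agent.Work.MP_b10815_co

/-- At least `2 m + 2 - min d (m + 1)` hyperplanes are needed to cover the integer points of the
cross-polytope of radius `m`. -/
theorem cover_cross (d : ℕ) : ∀ (m : ℕ) {ι : Type} (S : Finset ι) (u : ι → Fin d → ℝ) (b : ι → ℝ),
    (∀ j ∈ S, u j ≠ 0) →
    (∀ z : Fin d → ℤ, ∑ i, |z i| ≤ m → ∃ j ∈ S, ∑ i, u j i * z i = b j) →
    2 * m + 2 ≤ S.card + min d (m + 1) := by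
  induction d with
  | zero =>
    intro m ι S u b hu h
    obtain ⟨j, hj, -⟩ := h 0 (by simp)
    exact absurd (Subsingleton.elim _ _) (hu j hj)
  | succ d ih =>
    intro m ι S u b hu h
    classical
    set S₁ := S.filter (fun j => ∀ i : Fin d, u j i.succ = 0) with hS₁
    set S₂ := S.filter (fun j => ¬ ∀ i : Fin d, u j i.succ = 0) with hS₂
    have hcard : S₁.card + S₂.card = S.card := Finset.card_filter_add_card_filter_not _
    have hu0 : ∀ j ∈ S₁, u j 0 ≠ 0 := by
      intro j hj h0
      rw [hS₁, Finset.mem_filter] at hj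
      apply hu j hj.1
      ext i
      refine Fin.cases h0 (fun i => hj.2 i) i
    -- `P k`: the slice `x 0 = k` is one of the hyperplanes
    let P : ℤ → Prop := fun k => ∃ j ∈ S₁, b j = u j 0 * k
    have hP : ∀ n : ℕ, (∀ k : ℤ, |k| ≤ n → P k) → 2 * n + 1 ≤ S₁.card := by
      intro n hn
      have hex : ∀ k : ℤ, |k| ≤ n → ∃ j : S₁, b j = u j 0 * k := by
        intro k hk
        obtain ⟨j, hj, hjb⟩ := hn k hk
        exact ⟨⟨j, hj⟩, hjb⟩
      have _ : Nonempty S₁ := ⟨(hex 0 (by simp)).choose⟩
      choose! j hj using hex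
      have hinj : Set.InjOn j (Finset.Icc (-(n : ℤ)) n : Finset ℤ) := by
        intro k hk l hl hkl
        have hk' : |k| ≤ n := abs_le.2 (Finset.mem_Icc.1 hk)
        have hl' : |l| ≤ n := abs_le.2 (Finset.mem_Icc.1 hl)
        have h1 := hj k hk'
        have h2 := hj l hl'
        rw [hkl] at h1
        have h3 := mul_left_cancel₀ (hu0 _ (j l).2) (h1.symm.trans h2)
        exact_mod_cast h3
      have hcard := Finset.card_le_card_of_injOn (s := Finset.Icc (-(n : ℤ)) n)
        (t := (Finset.univ : Finset S₁)) j (fun _ _ => Finset.mem_univ _) hinj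
      rw [Int.card_Icc, Finset.card_univ, Fintype.card_coe] at hcard
      omega
    -- a slice which is not one of the hyperplanes
    have hsl : ∀ k : ℤ, k.natAbs ≤ m → ¬ P k →
        2 * (m - k.natAbs) + 2 ≤ S₂.card + min d (m - k.natAbs + 1) := by
      intro k hk hkP
      refine ih (m - k.natAbs) S₂ (fun j i => u j i.succ) (fun j => b j - u j 0 * k) ?_ ?_
      · intro j hj h0
        rw [hS₂, Finset.mem_filter] at hj
        exact hj.2 (fun i => congrFun h0 i)
      · intro z hz
        obtain ⟨j, hjS, hj⟩ := h (Fin.cons k z) (by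
          rw [Fin.sum_univ_succ]
          simp only [Fin.cons_zero, Fin.cons_succ]
          push_cast [Nat.cast_sub hk] at hz
          linarith)
        rw [Fin.sum_univ_succ] at hj
        simp only [Fin.cons_zero, Fin.cons_succ] at hj
        refine ⟨j, ?_, by linarith⟩
        rw [hS₂, Finset.mem_filter]
        refine ⟨hjS, fun h0 => hkP ⟨j, ?_, ?_⟩⟩
        · rw [hS₁, Finset.mem_filter]; exact ⟨hjS, h0⟩
        · rw [← hj, Finset.sum_eq_zero (fun i _ => by rw [h0 i, zero_mul]), add_zero]
    by_cases hall : ∀ k : ℤ, |k| ≤ m → P k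
    · have := hP m hall
      omega
    · push Not at hall
      obtain ⟨k₀, hk₀, hk₀P⟩ := hall
      have hex : ∃ n : ℕ, ∃ k : ℤ, k.natAbs = n ∧ ¬ P k := ⟨_, k₀, rfl, hk₀P⟩
      obtain ⟨k, hkn, hkP⟩ := Nat.find_spec hex
      set n := Nat.find hex with hn
      have hnm : n ≤ m := (Nat.find_min' hex ⟨k₀, rfl, hk₀P⟩).trans (by
        rw [Int.abs_eq_natAbs] at hk₀; omega)
      have h1 := hsl k (by omega) hkP
      rw [hkn] at h1
      rcases Nat.eq_zero_or_pos n with hn0 | hn0
      · rw [hn0] at h1
        omega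
      · have h2 := hP (n - 1) (by
          intro l hl
          by_contra hlP
          have := Nat.find_min' hex ⟨l, rfl, hlP⟩
          rw [Int.abs_eq_natAbs] at hl
          omega)
        omega

end Pool.Agent.Work.MP_b10815_sym
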