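import Pool.Agent.Work.MP_b10815_co.Defs

set_option autoImplicit false

namespace Pool.Agent.Work.MP_b10815_sym

open Pool.Agent.Work.MP_b10815_co

/-- A real number `c > 0` is admissible in dimension `d` for the convex bodies with the property
`P`: whenever the integer points of such a body `K` lie in a union of `N ≥ 1` hyperplanes, they lie
in a union of at most `c * N` pairwise parallel hyperplanes.  (`Admissible` is the case in which
`P` always holds.) -/
def AdmissibleFor (d : ℕ) (P : Set (Fin d → ℝ) → Prop) (c : ℝ) : Prop :=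
  0 < c ∧ ∀ K : Set (Fin d → ℝ), P K → Convex ℝ K → IsCompact K → (interior K).Nonempty →
    ∀ N : ℕ, 1 ≤ N → CoveredBy (integerPoints K) N →
      ∃ M : ℕ, (M : ℝ) ≤ c * N ∧ ParallelCoveredBy (integerPoints K) M

/-- `K` is centrally symmetric, `K = -K`. -/
def Symm {d : ℕ} (K : Set (Fin d → ℝ)) : Prop := ∀ x ∈ K, -x ∈ K

/-- `K` is unconditional: it is mapped to itself by the reflections in the coordinate
hyperplanes (changing the sign of one coordinate). -/
def Uncond {d : ℕ} (K : Set (Fin d → ℝ)) : Prop := ∀ x ∈ K, ∀ i, Function.update x i (-x i) ∈ K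

/-- The number of values of a linear form on integer points of `K` bounds the number of parallel
hyperplanes from below. -/
lemma card_le_of_parallel {d M : ℕ} {X : Set (Fin d → ℝ)} (h : ParallelCoveredBy X M) (m : ℕ)
    (hm : ∀ v : Fin d → ℝ, v ≠ 0 → ∃ p : ℤ → Fin d → ℝ, (∀ k : ℤ, |k| ≤ m → p k ∈ X) ∧
      ∀ k l : ℤ, |k| ≤ m → |l| ≤ m → ∑ i, v i * p k i = ∑ i, v i * p l i → k = l) :
    2 * m + 1 ≤ M := by
  obtain ⟨v, b, hv, hX⟩ := h
  obtain ⟨p, hp, hinj⟩ := hm v hv
  have hj : ∀ k : ℤ, |k| ≤ m → ∃ j : Fin M, ∑ i, v i * p k i = b j := by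
    intro k hk
    have := hX (hp k hk)
    simpa [hyperplane] using this
  have _ : Nonempty (Fin M) := ⟨(hj 0 (by simp)).choose⟩
  choose! j hj using hj
  have hinj' : Set.InjOn j (Finset.Icc (-(m : ℤ)) m : Finset ℤ) := by
    intro k hk l hl hkl
    have hk' : |k| ≤ m := abs_le.2 (Finset.mem_Icc.1 hk)
    have hl' : |l| ≤ m := abs_le.2 (Finset.mem_Icc.1 hl)
    exact hinj k l hk' hl' (by rw [hj k hk', hj l hl', hkl])
  have hcard := Finset.card_le_card_of_injOn (s := Finset.Icc (-(m : ℤ)) m)
    (t := (Finset.univ : Finset (Fin M))) j (fun _ _ => Finset.mem_univ _) hinj'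
  rw [Int.card_Icc, Finset.card_univ, Fintype.card_fin] at hcard
  omega

end Pool.Agent.Work.MP_b10815_sym
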