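import Pool.Agent.Work.MP_b10815_sym.Induct
import Pool.Agent.Work.MP_b10815_co_flt.Main

set_option autoImplicit false

namespace Pool.Agent.Work.MP_b10815_sym

open Pool.Agent.Work.MP_b10815_co Pool.Agent.Work.MP_b10815_co_flat

lemma AdmissibleFor.mono {d : ℕ} {P : Set (Fin d → ℝ) → Prop} {c c' : ℝ}
    (h : AdmissibleFor d P c) (hcc : c ≤ c') : AdmissibleFor d P c' := by
  refine ⟨h.1.trans_le hcc, fun K hP hK hc hi N hN hcov => ?_⟩
  obtain ⟨M, hM, hp⟩ := h.2 K hP hK hc hi N hN hcov
  exact ⟨M, hM.trans (mul_le_mul_of_nonneg_right hcc (Nat.cast_nonneg N)), hp⟩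

/-- The upper bound, with the near-linear flatness theorem. -/
theorem upper_log : ∃ C : ℝ, 0 < C ∧ ∀ d b : ℕ, 1 ≤ b → b ≤ d →
    AdmissibleFor d (BlockUncond b) (C * b * Real.log (b + 1) ^ 8) := by
  obtain ⟨C, hC, hflat⟩ := Pool.Agent.Work.MP_b10815_co_flt.flatness
  have hlog2 : 0 < Real.log 2 := Real.log_pos (by norm_num)
  refine ⟨2 * C + 1 / Real.log 2 ^ 8, by positivity, fun d b hb hbd => ?_⟩
  have hbR : (1 : ℝ) ≤ b := by exact_mod_cast hb
  have hlogb : Real.log 2 ≤ Real.log (b + 1) := Real.log_le_log (by norm_num) (by linarith)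
  have hL : Real.log 2 ^ 8 ≤ Real.log (b + 1) ^ 8 := pow_le_pow_left₀ hlog2.le hlogb 8
  set F : ℝ := C * b * Real.log (b + 1) ^ 8 with hF
  have hF0 : 0 < F := by
    have : 0 < Real.log ((b : ℝ) + 1) := hlog2.trans_le hlogb
    positivity
  have h1 := block_upper d b (hb.trans hbd) F hF0 (by
    intro n hn hnb
    have hnbR : (n : ℝ) ≤ b := by exact_mod_cast hnb
    have hn0 : (0 : ℝ) ≤ n := Nat.cast_nonneg n
    have hle : C * n * Real.log (n + 1) ^ 8 ≤ F := by
      have h2 : Real.log ((n : ℝ) + 1) ≤ Real.log (b + 1) :=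
        Real.log_le_log (by linarith) (by linarith)
      have h3 : 0 ≤ Real.log ((n : ℝ) + 1) := Real.log_nonneg (by linarith)
      have h4 : Real.log ((n : ℝ) + 1) ^ 8 ≤ Real.log (b + 1) ^ 8 := pow_le_pow_left₀ h3 h2 8
      rw [hF]
      have h5 : C * n ≤ C * b := mul_le_mul_of_nonneg_left hnbR hC.le
      exact mul_le_mul h5 h4 (by positivity) (by positivity)
    intro K hK hc hi he
    obtain ⟨a, ha, hw⟩ := hflat n hn K hK hc hi he
    exact ⟨a, ha, fun x hx y hy => (hw x hx y hy).trans hle⟩)
  refine h1.mono ?_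
  have h6 : 1 ≤ 1 / Real.log 2 ^ 8 * b * Real.log (b + 1) ^ 8 := by
    calc (1 : ℝ) = 1 / Real.log 2 ^ 8 * 1 * Real.log 2 ^ 8 := by field_simp
      _ ≤ 1 / Real.log 2 ^ 8 * b * Real.log (b + 1) ^ 8 := by gcongr
  have h7 : (2 * C + 1 / Real.log 2 ^ 8) * b * Real.log (b + 1) ^ 8 =
      2 * F + 1 / Real.log 2 ^ 8 * b * Real.log (b + 1) ^ 8 := by rw [hF]; ring
  rw [h7]
  linarith

/-- The body of the lower bound is invariant under the changes of sign of blocks. -/
lemma body_block (d b : ℕ) (hd : 2 ≤ d) (q : ℕ) (hq : 1 ≤ q) (hqb : 2 * q ≤ b) :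
    BlockUncond b (body (wgt d q) (shf hd q)) := by
  classical
  refine ⟨fun i => if (i : ℕ) < 2 * q then c0 hd else i, fun j => ?_, fun x hx j => ?_⟩
  · by_cases hj : j = c0 hd
    · have hsub : (Finset.univ.filter (fun i : Fin d => (if (i : ℕ) < 2 * q then c0 hd else i) = j)) ⊆
          Finset.univ.filter (fun i : Fin d => (i : ℕ) < 2 * q) := by
        intro i hi
        rw [Finset.mem_filter] at hi ⊢
        refine ⟨hi.1, ?_⟩
        by_contra h
        have h2 := hi.2
        rw [if_neg h, hj] at h2
        rw [h2, c0_val] at h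
        omega
      refine (Finset.card_le_card hsub).trans (le_trans ?_ hqb)
      have : (Finset.univ.filter (fun i : Fin d => (i : ℕ) < 2 * q)).card ≤
          (Finset.range (2 * q)).card := by
        refine Finset.card_le_card_of_injOn (fun i => (i : ℕ)) (fun i hi => ?_)
          (fun i _ l _ h => Fin.ext h)
        simpa using hi
      rwa [Finset.card_range] at this
    · have hsub : (Finset.univ.filter (fun i : Fin d => (if (i : ℕ) < 2 * q then c0 hd else i) = j)) ⊆
          {j} := by
        intro i hi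
        rw [Finset.mem_filter] at hi
        rw [Finset.mem_singleton]
        have h2 := hi.2
        split_ifs at h2 with h
        · exact absurd h2.symm hj
        · exact h2
      refine (Finset.card_le_card hsub).trans ?_
      rw [Finset.card_singleton]; omega
  · rw [body, Set.mem_ofPred_eq] at hx ⊢
    refine le_trans (le_of_eq (Finset.sum_congr rfl fun i _ => ?_)) hx
    congr 1
    rw [shf_apply, shf_apply]
    have e0 : ((c0 hd : Fin d) : ℕ) < 2 * q := by rw [c0_val]; omega
    have e1 : ((c1 hd : Fin d) : ℕ) < 2 * q := by rw [c1_val]; omega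
    simp only [e0, e1, if_true]
    by_cases hj : c0 hd = j
    · simp only [hj, if_true]
      by_cases hi : (i : ℕ) < 2 * q
      · simp only [hi, if_true]
        rw [← abs_neg]
        congr 1
        ring
      · have hij : ¬ i = j := by
          rintro rfl
          apply hi
          rw [← hj]; exact e0
        simp only [hi, if_false, hij]
        rw [al_big q i hq (by omega), be_big q i (by omega)]
        simp
    · simp only [hj, if_false]
      by_cases hi : (i : ℕ) < 2 * q
      · simp only [hi, if_true, hj, if_false]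
      · simp only [hi, if_false]
        rw [al_big q i hq (by omega), be_big q i (by omega)]
        split_ifs <;> simp

/-- The lower bound. -/
theorem lower_block (d b : ℕ) (c : ℝ) (hb : 1 ≤ b) (hbd : b ≤ d)
    (hc : AdmissibleFor d (BlockUncond b) c) : ((b : ℝ) - 1) / 4 ≤ c := by
  rcases Nat.lt_or_ge b 2 with hb2 | hb2
  · have : (b : ℝ) = 1 := by
      have : b = 1 := by omega
      exact_mod_cast this
    rw [this]
    linarith [hc.1]
  · have h := lower_gen d (hb2.trans hbd) (b / 2) (by omega) (by omega) (BlockUncond b)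
      (body_block d b (hb2.trans hbd) (b / 2) (by omega) (by omega)) c hc
    have h2 : b ≤ 2 * (2 * (b / 2 / 2) + 1) + 1 := by omega
    have h3 : (b : ℝ) ≤ 2 * ((2 * (b / 2 / 2) + 1 : ℕ) : ℝ) + 1 := by exact_mod_cast h2
    linarith

lemma blockUncond_one {d : ℕ} (K : Set (Fin d → ℝ)) : BlockUncond 1 K ↔ Uncond K := by
  classical
  constructor
  · rintro ⟨β, hβ, hflip⟩ x hx i
    have h := hflip x hx (β i)
    convert h using 1
    ext l
    by_cases hl : l = i
    · subst hl; simp
    · have hne : β l ≠ β i := by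
        intro he
        have hc := hβ (β i)
        rw [Finset.card_le_one] at hc
        exact hl (hc l (by simp [he]) i (by simp))
      rw [Function.update_of_ne hl, if_neg hne]
  · intro h
    refine ⟨id, fun j => ?_, fun x hx j => ?_⟩
    · rw [Finset.card_le_one]
      intro a ha b hb
      simp only [id_eq, Finset.mem_filter, Finset.mem_univ, true_and] at ha hb
      rw [ha, hb]
    · have h2 := h x hx j
      convert h2 using 1
      ext l
      by_cases hl : l = j
      · subst hl; simp
      · rw [Function.update_of_ne hl, id_eq, if_neg hl]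

theorem exact_one (d : ℕ) (c : ℝ) (hd : 1 ≤ d) :
    AdmissibleFor d (BlockUncond 1) c ↔ 2 - 1 / (d : ℝ) ≤ c := by
  rw [← uncond_exact d hd c, AdmissibleFor, AdmissibleFor]
  simp only [blockUncond_one]

lemma blockUncond_self {d : ℕ} (hd : 1 ≤ d) (K : Set (Fin d → ℝ)) : BlockUncond d K ↔ Symm K := by
  classical
  constructor
  · rintro ⟨β, -, hflip⟩ x hx
    exact bl_neg hflip hx
  · intro h
    refine ⟨fun _ => ⟨0, hd⟩, fun j => ?_, fun x hx j => ?_⟩
    · exact (Finset.card_filter_le _ _).trans (by simp)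
    · by_cases hj : (⟨0, hd⟩ : Fin d) = j
      · simp only [hj, if_true]
        exact h x hx
      · simp only [hj, if_false]
        exact hx

end Pool.Agent.Work.MP_b10815_sym
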