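import Pool.Agent.Work.MP_b10815_sym.Block

set_option autoImplicit false

namespace Pool.Agent.Work.MP_b10815_sym

open Pool.Agent.Work.MP_b10815_co Pool.Agent.Work.MP_b10815_co_flat
open scoped Pointwise Topology

section

variable {d : ℕ} {β : Fin d → Fin d} {K : Set (Fin d → ℝ)}

/-- The block `j` is wide. -/
def Wide (β : Fin d → Fin d) (K : Set (Fin d → ℝ)) (W : ℝ) (j : Fin d) : Prop :=
  ∀ a : Fin d → ℤ, (∀ i, β i ≠ j → a i = 0) → a ≠ 0 → ∃ x ∈ K, ∃ y ∈ K,
      (∀ i, β i ≠ j → x i = 0) ∧ (∀ i, β i ≠ j → y i = 0) ∧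
      W < (∑ i, (a i : ℝ) * x i) - (∑ i, (a i : ℝ) * y i)

lemma gb_zero' (j : Fin d) : gb β K j 0 = 0 := gb_zero j (fun _ _ => rfl)

/-- Integer points of bounded norm in one block are finitely many. -/
lemma finite_block (hK : Convex ℝ K) (hc : IsCompact K) (h0 : (0 : Fin d → ℝ) ∈ interior K)
    (j : Fin d) (t : ℝ) :
    {z : Fin d → ℤ | (∀ i, β i ≠ j → z i = 0) ∧ gb β K j z ≤ t}.Finite := by
  have hab : Absorbent ℝ K := absorbent_nhds_zero (mem_interior_iff_mem_nhds.1 h0)
  set r : ℝ := max t 1 with hr
  have hrpos : 0 < r := lt_of_lt_of_le one_pos (le_max_right _ _)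
  have hfin := finite_integerPoints (hc.smul (2 * r))
  refine Set.Finite.of_finite_image (f := fun (z : Fin d → ℤ) (i : Fin d) => (z i : ℝ))
    (hfin.subset ?_) ?_
  · rintro _ ⟨z, ⟨hz0, hz⟩, rfl⟩
    refine ⟨?_, fun i => ⟨z i, rfl⟩⟩
    have h1 : gauge K (fun i => (z i : ℝ)) < 2 * r := by
      have : (fun i => if β i = j then (z i : ℝ) else 0) = (fun i => (z i : ℝ)) := by
        ext i
        by_cases hi : β i = j
        · rw [if_pos hi]
        · rw [if_neg hi, hz0 i hi]; simp
      rw [gb, this] at hz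
      have := hz.trans (le_max_left t 1)
      linarith
    obtain ⟨c, hc0, hc1, y, hy, hyz⟩ := exists_lt_of_gauge_lt hab h1
    have h0K : (0 : Fin d → ℝ) ∈ K := interior_subset h0
    have hyz' : c • y = fun i => (z i : ℝ) := hyz
    simp only []
    rw [← hyz']
    refine ⟨(c / (2 * r)) • y, ?_, ?_⟩
    · have h2r : 0 < 2 * r := by linarith
      have := hK h0K hy (a := 1 - c / (2 * r)) (b := c / (2 * r)) (by
        rw [sub_nonneg, div_le_one h2r]; exact hc1.le) (by positivity) (by ring)
      simpa using this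
    · simp only [smul_smul]
      congr 1
      field_simp
  · intro z _ z' _ h
    ext i
    have := congrFun h i
    simp only [] at this
    exact_mod_cast this

/-- The main induction. -/
theorem blocks_cover (hK : Convex ℝ K) (hc : IsCompact K) (h0 : (0 : Fin d → ℝ) ∈ interior K)
    {F W : ℝ} (hF0 : 0 < F) (T : Finset (Fin d)) :
    T.Nonempty → (∀ j ∈ T, (∃ i, β i = j) ∧
      FlatnessBound (Finset.univ.filter (fun i => β i = j)).card F ∧ Wide β K W j) →
    ∀ (t : ℝ), 0 < t → ∀ {ι : Type} (S : Finset ι) (u : ι → Fin d → ℝ) (b : ι → ℝ),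
    (∀ s ∈ S, ∃ i, β i ∈ T ∧ u s i ≠ 0) →
    (∀ z : Fin d → ℤ, (∀ i, β i ∉ T → z i = 0) → ∑ j ∈ T, gb β K j z ≤ t →
      ∃ s ∈ S, ∑ i, u s i * z i = b s) →
    t * W < 2 * F * S.card := by
  classical
  induction T using Finset.induction_on with
  | empty => intro h; exact absurd h (by simp)
  | insert j T hj ih =>
    intro _ hT t ht ι S u b hu hcov
    obtain ⟨hjne, hFj, hWj⟩ := hT j (Finset.mem_insert_self j T)
    -- families of hyperplanes with normals in the block `j` which cover a ball of the block
    have hone : ∀ (S' : Finset ι), (∀ s ∈ S', ∃ i, β i = j ∧ u s i ≠ 0) → ∀ t' : ℝ, 0 < t' →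
        (∀ z : Fin d → ℤ, (∀ i, β i ≠ j → z i = 0) → gb β K j z ≤ t' →
          ∃ s ∈ S', ∑ i, u s i * z i = b s) → t' * W < 2 * F * S'.card := by
      intro S' hu' t' ht' hcov'
      have h1 := block_cover hK hc h0 j hjne hFj hWj ht' S' u b hu' hcov'
      have h2 : 1 ≤ S'.card := by
        obtain ⟨s, hs, -⟩ := hcov' 0 (fun i _ => rfl) (by
          rw [gb_zero' j]; exact ht'.le)
        exact Finset.card_pos.2 ⟨s, hs⟩
      have h3 : (1 : ℝ) ≤ S'.card := by exact_mod_cast h2
      nlinarith
    rcases T.eq_empty_or_nonempty with rfl | hTne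
    · refine hone S (fun s hs => ?_) t ht (fun z hz hzt => ?_)
      · obtain ⟨i, hi, hui⟩ := hu s hs
        exact ⟨i, by simpa using hi, hui⟩
      · exact hcov z (fun i hi => hz i (by simpa using hi)) (by simpa using hzt)
    set S₁ := S.filter (fun s => ∀ i, β i ∈ T → u s i = 0) with hS₁
    set S₂ := S.filter (fun s => ¬ ∀ i, β i ∈ T → u s i = 0) with hS₂
    have hcard : S₁.card + S₂.card = S.card := Finset.card_filter_add_card_filter_not _
    have hcardR : (S₁.card : ℝ) + S₂.card = S.card := by exact_mod_cast hcard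
    have hu1 : ∀ s ∈ S₁, ∃ i, β i = j ∧ u s i ≠ 0 := by
      intro s hs
      rw [hS₁, Finset.mem_filter] at hs
      obtain ⟨i, hi, hui⟩ := hu s hs.1
      rcases Finset.mem_insert.1 hi with h | h
      · exact ⟨i, h, hui⟩
      · exact absurd (hs.2 i h) hui
    have hu2 : ∀ s ∈ S₂, ∃ i, β i ∈ T ∧ u s i ≠ 0 := by
      intro s hs
      rw [hS₂, Finset.mem_filter] at hs
      have := hs.2
      push Not at this
      exact this
    -- integer points of the block `j`, not covered by `S₁`
    set U : Set (Fin d → ℤ) := {z | ((∀ i, β i ≠ j → z i = 0) ∧ gb β K j z ≤ t) ∧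
      ∀ s ∈ S₁, ∑ i, u s i * z i ≠ b s} with hU
    rcases U.eq_empty_or_nonempty with hUe | hUne
    · have h1 := hone S₁ hu1 t ht (fun z hz hzt => by
        by_contra hcon
        push Not at hcon
        have : z ∈ U := ⟨⟨hz, hzt⟩, hcon⟩
        rw [hUe] at this
        exact this)
      have h2 : (0 : ℝ) ≤ 2 * F * S₂.card := by positivity
      calc t * W < 2 * F * S₁.card := h1
        _ ≤ 2 * F * S₁.card + 2 * F * S₂.card := by linarith
        _ = 2 * F * S.card := by rw [← hcardR]; ring
    · have hUfin : U.Finite := (finite_block (β := β) hK hc h0 j t).subset (fun z hz => hz.1)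
      obtain ⟨k, hkU, hkmin⟩ := Set.exists_min_image U (gb β K j) hUfin hUne
      obtain ⟨⟨hk0, hkt⟩, hkS⟩ := hkU
      set τ := gb β K j k with hτ
      have hτ0 : 0 ≤ τ := gb_nonneg j k
      -- part (i)
      have hpart1 : τ * W ≤ 2 * F * S₁.card := by
        rcases hτ0.eq_or_lt with h | hτpos
        · rw [← h]
          have : (0 : ℝ) ≤ 2 * F * S₁.card := by positivity
          linarith
        · by_contra hcon
          push Not at hcon
          have hcov1 : ∀ t' : ℝ, t' < τ → ∀ z : Fin d → ℤ, (∀ i, β i ≠ j → z i = 0) →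
              gb β K j z ≤ t' → ∃ s ∈ S₁, ∑ i, u s i * z i = b s := by
            intro t' ht' z hz hzt
            by_contra hcon'
            push Not at hcon'
            have hzU : z ∈ U := ⟨⟨hz, by linarith⟩, hcon'⟩
            have := hkmin z hzU
            linarith
          have hS1 : 1 ≤ S₁.card := by
            obtain ⟨s, hs, -⟩ := hcov1 0 hτpos 0 (fun i _ => rfl)
              (by rw [gb_zero' j])
            exact Finset.card_pos.2 ⟨s, hs⟩
          have hS1R : (1 : ℝ) ≤ S₁.card := by exact_mod_cast hS1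
          have hWpos : 0 < W := by
            by_contra hW
            push Not at hW
            have h1 : τ * W ≤ 0 := mul_nonpos_of_nonneg_of_nonpos hτ0 hW
            have h2 : (0 : ℝ) ≤ 2 * F * S₁.card := by positivity
            linarith
          have ht'pos : 0 < 2 * F * S₁.card / W := by positivity
          have ht'lt : 2 * F * S₁.card / W < τ := by
            rw [div_lt_iff₀ hWpos]; exact hcon
          have h1 := hone S₁ hu1 _ ht'pos (hcov1 _ ht'lt)
          rw [div_mul_cancel₀ _ hWpos.ne'] at h1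
          exact lt_irrefl _ h1
      -- the slice at `k`
      have hslice : ∀ z : Fin d → ℤ, (∀ i, β i ∉ T → z i = 0) → ∑ l ∈ T, gb β K l z ≤ t - τ →
          ∃ s ∈ S₂, ∑ i, u s i * z i = b s - ∑ i, u s i * k i := by
        intro z hz hzt
        obtain ⟨s, hs, hsb⟩ := hcov (k + z) (by
          intro i hi
          have h1 : β i ≠ j := fun h => hi (by rw [h]; exact Finset.mem_insert_self j T)
          have h2 : β i ∉ T := fun h => hi (Finset.mem_insert_of_mem h)
          rw [Pi.add_apply, hk0 i h1, hz i h2, add_zero]) (by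
          rw [Finset.sum_insert hj]
          have e1 : gb β K j (k + z) = τ := gb_congr j (fun i hi => by
            rw [Pi.add_apply, hz i (by rw [hi]; exact hj), add_zero])
          have e2 : ∑ l ∈ T, gb β K l (k + z) = ∑ l ∈ T, gb β K l z :=
            Finset.sum_congr rfl fun l hl => gb_congr l (fun i hi => by
              have : β i ≠ j := by rintro h; rw [hi] at h; rw [h] at hl; exact hj hl
              rw [Pi.add_apply, hk0 i this, zero_add])
          rw [e1, e2]
          linarith)
        have hsplit : ∑ i, u s i * ((k + z) i : ℤ) = ∑ i, u s i * k i + ∑ i, u s i * z i := by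
          rw [← Finset.sum_add_distrib]
          refine Finset.sum_congr rfl fun i _ => ?_
          rw [Pi.add_apply]; push_cast; ring
        rw [hsplit] at hsb
        refine ⟨s, ?_, by linarith⟩
        rw [hS₂, Finset.mem_filter]
        refine ⟨hs, fun hall => ?_⟩
        have hs1 : s ∈ S₁ := by rw [hS₁, Finset.mem_filter]; exact ⟨hs, hall⟩
        have hz0 : ∑ i, u s i * (z i : ℝ) = 0 := by
          refine Finset.sum_eq_zero fun i _ => ?_
          by_cases hi : β i ∈ T
          · rw [hall i hi, zero_mul]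
          · rw [hz i hi]; simp
        rw [hz0, add_zero] at hsb
        exact hkS s hs1 hsb
      rcases hkt.lt_or_eq with hlt | heq
      · have h2 := ih hTne (fun l hl => hT l (Finset.mem_insert_of_mem hl)) (t - τ) (by linarith)
          S₂ u (fun s => b s - ∑ i, u s i * k i) hu2 hslice
        calc t * W = (t - τ) * W + τ * W := by ring
          _ < 2 * F * S₂.card + 2 * F * S₁.card := by linarith
          _ = 2 * F * S.card := by rw [← hcardR]; ring
      · have hS2 : 1 ≤ S₂.card := by
          obtain ⟨s, hs, -⟩ := hslice 0 (fun i _ => rfl) (by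
            rw [Finset.sum_eq_zero (fun l _ => gb_zero' l)]
            linarith)
          exact Finset.card_pos.2 ⟨s, hs⟩
        have hS2R : (1 : ℝ) ≤ S₂.card := by exact_mod_cast hS2
        calc t * W = τ * W := by rw [heq]
          _ ≤ 2 * F * S₁.card := hpart1
          _ < 2 * F * S₁.card + 2 * F * S₂.card := by
            have : 0 < 2 * F * S₂.card := by positivity
            linarith
          _ = 2 * F * S.card := by rw [← hcardR]; ring

/-- The upper bound: if `F` bounds the flatness constants in dimensions at most `b`, then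
`2 F + 1` is admissible. -/
theorem block_upper (d b : ℕ) (hd : 1 ≤ d) (F : ℝ) (hF0 : 0 < F)
    (hF : ∀ n, 1 ≤ n → n ≤ b → FlatnessBound n F) : AdmissibleFor d (BlockUncond b) (2 * F + 1) := by
  classical
  refine ⟨by linarith, fun K hBU hK hc hint N hN hcov => ?_⟩
  obtain ⟨β, hβ, hflip⟩ := hBU
  have h0 := bl_zero_interior hflip hK hint
  have hab : Absorbent ℝ K := absorbent_nhds_zero (mem_interior_iff_mem_nhds.1 h0)
  have hNR : (1 : ℝ) ≤ N := by exact_mod_cast hN
  obtain ⟨u, c, hu, hsub⟩ := hcov
  set T : Finset (Fin d) := Finset.univ.image β with hTdef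
  have hTmem : ∀ i, β i ∈ T := fun i => Finset.mem_image_of_mem β (Finset.mem_univ i)
  have hTne : T.Nonempty := ⟨β ⟨0, hd⟩, hTmem _⟩
  by_cases hall : ∀ j ∈ T, Wide β K (2 * F * N) j
  · exfalso
    have h1 := blocks_cover (β := β) (W := 2 * F * N) hK hc h0 hF0 T hTne (fun j hj => by
      obtain ⟨i, -, hi⟩ := Finset.mem_image.1 hj
      refine ⟨⟨i, hi⟩, hF _ ?_ (hβ j), hall j hj⟩
      exact Finset.card_pos.2 ⟨i, by simp [hi]⟩) 1 one_pos (Finset.univ : Finset (Fin N)) u c
      (fun s _ => by
        obtain ⟨i, hi⟩ := Function.ne_iff.1 (hu s)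
        exact ⟨i, hTmem i, hi⟩) (fun z _ hz => by
        have hg : gauge K (fun i => (z i : ℝ)) ≤ 1 := by
          have hsum : (fun i => (z i : ℝ)) = ∑ j ∈ T, (fun i => if β i = j then (z i : ℝ) else 0) := by
            ext i
            rw [Finset.sum_apply, Finset.sum_ite_eq, if_pos (hTmem i)]
          rw [hsum]
          exact (gauge_sum_le hK hab T _).trans hz
        have hmem : (fun i => (z i : ℝ)) ∈ K := by
          have := (gauge_le_one_iff_mem_closure hK (mem_interior_iff_mem_nhds.1 h0)).1 hg
          rwa [hc.isClosed.closure_eq] at this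
        have := hsub (show (fun i => (z i : ℝ)) ∈ integerPoints K from ⟨hmem, fun i => ⟨z i, rfl⟩⟩)
        obtain ⟨s, hs⟩ := Set.mem_iUnion.1 this
        exact ⟨s, Finset.mem_univ s, hs⟩)
    rw [Finset.card_univ, Fintype.card_fin, one_mul] at h1
    exact lt_irrefl _ h1
  · push Not at hall
    obtain ⟨j, hj, hW⟩ := hall
    rw [Wide] at hW
    push Not at hW
    obtain ⟨a, ha0, hane, hw⟩ := hW
    have hproj : ∀ x : Fin d → ℝ, ∑ i, (a i : ℝ) * x i =
        ∑ i, (a i : ℝ) * (if β i = j then x i else 0) := by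
      intro x
      refine Finset.sum_congr rfl fun i _ => ?_
      by_cases hi : β i = j
      · rw [if_pos hi]
      · rw [ha0 i hi]; simp
    obtain ⟨M, hM, hp⟩ := parallel_of_width (K := K) a hane (W := 2 * F * N) (by positivity) (by
      intro x hx y hy
      have h1 := hw _ (bl_keep hflip hK hx j) _ (bl_keep hflip hK hy j)
        (fun i hi => by rw [if_neg hi]) (fun i hi => by rw [if_neg hi])
      rw [← hproj, ← hproj] at h1
      exact h1)
    refine ⟨M, hM.trans ?_, hp⟩
    nlinarith

end

end Pool.Agent.Work.MP_b10815_sym
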