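import Pool.Agent.Work.MP_b10815_sym.Body
import Pool.Agent.Work.MP_b10815_sym.Circle

set_option autoImplicit false

namespace Pool.Agent.Work.MP_b10815_sym

open Pool.Agent.Work.MP_b10815_co

/-- The shifts in the first block of coordinates `2, .., q`. -/
noncomputable def al (q n : ℕ) : ℝ := if 2 ≤ n ∧ n ≤ q then ((n - 1 : ℕ) : ℝ) / q else 0

/-- The shifts in the second block of coordinates `q + 1, .., 2 q - 1`. -/
noncomputable def be (q n : ℕ) : ℝ := if q + 1 ≤ n ∧ n < 2 * q then ((n - q : ℕ) : ℝ) / q else 0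

lemma al_small (q n : ℕ) (h : n < 2) : al q n = 0 := by
  rw [al, if_neg (by omega)]

lemma be_small (q n : ℕ) (hq : 1 ≤ q) (h : n < 2) : be q n = 0 := by
  rw [be, if_neg (by omega)]

lemma al_big (q n : ℕ) (hq : 1 ≤ q) (h : 2 * q ≤ n) : al q n = 0 := by
  rw [al, if_neg (by omega)]

lemma be_big (q n : ℕ) (h : 2 * q ≤ n) : be q n = 0 := by
  rw [be, if_neg (by omega)]

lemma al_or_be (q n : ℕ) : al q n = 0 ∨ be q n = 0 := by
  by_cases h : n ≤ q
  · right; rw [be, if_neg (by omega)]
  · left; rw [al, if_neg (by omega)]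

lemma cs_eq (q : ℕ) (hq : 1 ≤ q) (a : ℤ) :
    cs q a = ∑ j ∈ Finset.Ico 1 q, ‖(((a : ℝ) * j / q : ℝ) : UnitAddCircle)‖ := by
  rw [cs, Finset.sum_range_eq_add_Ico _ hq]
  simp

lemma sum_al (d q : ℕ) (hq : 1 ≤ q) (hd : 2 * q ≤ d) (a : ℤ) :
    ∑ i : Fin d, ‖((al q i * a : ℝ) : UnitAddCircle)‖ = cs q a := by
  rw [Fin.sum_univ_eq_sum_range (fun n => ‖((al q n * a : ℝ) : UnitAddCircle)‖) d]
  have hsub : Finset.Ico (1 + 1) (q + 1) ⊆ Finset.range d := by
    intro n hn
    rw [Finset.mem_Ico] at hn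
    rw [Finset.mem_range]; omega
  rw [← Finset.sum_subset hsub (by
    intro n _ hn
    rw [Finset.mem_Ico] at hn
    rw [al, if_neg (by omega)]
    simp), ← Finset.sum_Ico_add', cs_eq q hq]
  refine Finset.sum_congr rfl fun j hj => ?_
  rw [Finset.mem_Ico] at hj
  rw [al, if_pos (by omega), Nat.add_sub_cancel]
  congr 2
  ring

lemma sum_be (d q : ℕ) (hq : 1 ≤ q) (hd : 2 * q ≤ d) (a : ℤ) :
    ∑ i : Fin d, ‖((be q i * a : ℝ) : UnitAddCircle)‖ = cs q a := by
  rw [Fin.sum_univ_eq_sum_range (fun n => ‖((be q n * a : ℝ) : UnitAddCircle)‖) d]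
  have hsub : Finset.Ico (1 + q) (q + q) ⊆ Finset.range d := by
    intro n hn
    rw [Finset.mem_Ico] at hn
    rw [Finset.mem_range]; omega
  rw [← Finset.sum_subset hsub (by
    intro n _ hn
    rw [Finset.mem_Ico] at hn
    rw [be, if_neg (by omega)]
    simp), ← Finset.sum_Ico_add', cs_eq q hq]
  refine Finset.sum_congr rfl fun j hj => ?_
  rw [Finset.mem_Ico] at hj
  rw [be, if_pos (by omega), Nat.add_sub_cancel]
  congr 2
  ring

section

variable {d : ℕ} (hd : 2 ≤ d)

/-- The weights. -/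
noncomputable def wgt (d q : ℕ) : Fin d → ℝ := fun i => if (i : ℕ) < 2 then 1 / (2 * q - 1) else 2 / q

/-- The coordinate `0`. -/
def c0 : Fin d := ⟨0, by omega⟩

/-- The coordinate `1`. -/
def c1 : Fin d := ⟨1, by omega⟩

lemma c0_val : ((c0 hd : Fin d) : ℕ) = 0 := rfl

lemma c1_val : ((c1 hd : Fin d) : ℕ) = 1 := rfl

lemma c_cases (i : Fin d) (hi : (i : ℕ) < 2) : i = c0 hd ∨ i = c1 hd := by
  rcases Nat.lt_or_ge (i : ℕ) 1 with h | h
  · left; ext; rw [c0_val]; omega
  · right; ext; rw [c1_val]; omega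

lemma c01 : c0 hd ≠ c1 hd := by
  intro h
  have := congrArg Fin.val h
  rw [c0_val, c1_val] at this
  omega

/-- The linear map. -/
noncomputable def shf (q : ℕ) : (Fin d → ℝ) →ₗ[ℝ] (Fin d → ℝ) :=
  LinearMap.pi fun i => LinearMap.proj i + al q i • LinearMap.proj (c0 hd) +
    be q i • LinearMap.proj (c1 hd)

lemma shf_apply (q : ℕ) (x : Fin d → ℝ) (i : Fin d) :
    shf hd q x i = x i + al q i * x (c0 hd) + be q i * x (c1 hd) := by
  simp [shf]

lemma shf_inj (q : ℕ) (hq : 1 ≤ q) : Function.Injective (shf hd q) := by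
  rw [← LinearMap.ker_eq_bot, LinearMap.ker_eq_bot']
  intro x hx
  have h : ∀ i : Fin d, x i + al q i * x (c0 hd) + be q i * x (c1 hd) = 0 := by
    intro i
    rw [← shf_apply hd, hx]; rfl
  have h0 : x (c0 hd) = 0 := by
    have := h (c0 hd)
    rw [al_small q _ (by rw [c0_val]; norm_num), be_small q _ hq (by rw [c0_val]; norm_num)] at this
    linarith
  have h1 : x (c1 hd) = 0 := by
    have := h (c1 hd)
    rw [al_small q _ (by rw [c1_val]; norm_num), be_small q _ hq (by rw [c1_val]; norm_num)] at this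
    linarith
  ext i
  have := h i
  rw [h0, h1] at this
  simpa using this

lemma wgt_pos (q : ℕ) (hq : 1 ≤ q) (i : Fin d) : 0 < wgt d q i := by
  have hqR : (1 : ℝ) ≤ q := by exact_mod_cast hq
  rw [wgt]
  split_ifs
  · exact one_div_pos.2 (by linarith)
  · positivity

lemma int_dist (y : ℝ) (z : ℤ) : ‖((y : ℝ) : UnitAddCircle)‖ ≤ |(z : ℝ) + y| := by
  rw [UnitAddCircle.norm_eq]
  have := round_le y (-z)
  refine this.trans (le_of_eq ?_)
  push_cast
  rw [add_comm, sub_neg_eq_add]

/-- The integer points lie on two coordinate hyperplanes. -/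
lemma hole (q : ℕ) (hq : 1 ≤ q) (hdq : 2 * q ≤ d) (z : Fin d → ℤ) (h0 : z (c0 hd) ≠ 0)
    (h1 : z (c1 hd) ≠ 0) : 1 < ∑ i, wgt d q i * |shf hd q (fun i => (z i : ℝ)) i| := by
  classical
  have hqR : (1 : ℝ) ≤ q := by exact_mod_cast hq
  have h2q : (0 : ℝ) < 2 * q - 1 := by linarith
  have hq0 : (0 : ℝ) < q := by linarith
  set a := z (c0 hd) with ha
  set b := z (c1 hd) with hb
  have hterm : ∀ i : Fin d, (if i = c0 hd then |(a : ℝ)| / (2 * q - 1) else 0) +
      (if i = c1 hd then |(b : ℝ)| / (2 * q - 1) else 0) +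
      2 / q * ‖((al q i * a : ℝ) : UnitAddCircle)‖ + 2 / q * ‖((be q i * b : ℝ) : UnitAddCircle)‖ ≤
      wgt d q i * |shf hd q (fun i => (z i : ℝ)) i| := by
    intro i
    rw [shf_apply, wgt]
    rcases lt_or_ge (i : ℕ) 2 with hi | hi
    · rw [al_small q i hi, be_small q i hq hi, if_pos hi]
      rcases c_cases hd i hi with rfl | rfl
      · rw [if_pos rfl, if_neg (c01 hd)]
        simp only [zero_mul, add_zero, AddCircle.coe_zero, norm_zero, mul_zero]
        rw [div_eq_mul_inv, one_div, mul_comm]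
      · rw [if_neg (c01 hd).symm, if_pos rfl]
        simp only [zero_mul, add_zero, AddCircle.coe_zero, norm_zero, mul_zero, zero_add]
        rw [div_eq_mul_inv, one_div, mul_comm]
    · rw [if_neg (by rintro rfl; rw [c0_val] at hi; omega),
        if_neg (by rintro rfl; rw [c1_val] at hi; omega), if_neg (by omega)]
      rw [zero_add, zero_add, ← mul_add]
      refine mul_le_mul_of_nonneg_left ?_ (by positivity)
      rcases al_or_be q i with h | h
      · rw [h]
        simp only [zero_mul, add_zero, AddCircle.coe_zero, norm_zero, zero_add]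
        exact int_dist _ _
      · rw [h]
        simp only [zero_mul, add_zero, AddCircle.coe_zero, norm_zero]
        exact int_dist _ _
  have hsum := Finset.sum_le_sum (s := (Finset.univ : Finset (Fin d))) (fun i _ => hterm i)
  rw [Finset.sum_add_distrib, Finset.sum_add_distrib, Finset.sum_add_distrib,
    Finset.sum_ite_eq', Finset.sum_ite_eq', if_pos (Finset.mem_univ _), if_pos (Finset.mem_univ _),
    ← Finset.mul_sum, ← Finset.mul_sum, sum_al d q hq hdq, sum_be d q hq hdq] at hsum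
  refine lt_of_lt_of_le ?_ hsum
  have ha1 := cs_lower q hq a h0
  have hb1 := cs_lower q hq b h1
  have hapos : (0 : ℝ) < |(a : ℝ)| := abs_pos.2 (by exact_mod_cast h0)
  have hbpos : (0 : ℝ) < |(b : ℝ)| := abs_pos.2 (by exact_mod_cast h1)
  have e1 : 2 / (q : ℝ) * ((q - |(a : ℝ)|) / 4) ≤ 2 / q * cs q a :=
    mul_le_mul_of_nonneg_left ha1 (by positivity)
  have e2 : 2 / (q : ℝ) * ((q - |(b : ℝ)|) / 4) ≤ 2 / q * cs q b :=
    mul_le_mul_of_nonneg_left hb1 (by positivity)
  have e3 : 2 / (q : ℝ) * ((q - |(a : ℝ)|) / 4) = 1 / 2 - |(a : ℝ)| / (2 * q) := by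
    field_simp; ring
  have e4 : 2 / (q : ℝ) * ((q - |(b : ℝ)|) / 4) = 1 / 2 - |(b : ℝ)| / (2 * q) := by
    field_simp; ring
  have e5 : |(a : ℝ)| / (2 * q) < |(a : ℝ)| / (2 * q - 1) :=
    div_lt_div_of_pos_left hapos h2q (by linarith)
  have e6 : |(b : ℝ)| / (2 * q) < |(b : ℝ)| / (2 * q - 1) :=
    div_lt_div_of_pos_left hbpos h2q (by linarith)
  linarith

/-- The arithmetic for the levels. -/
lemma level_arith (q : ℕ) (hq : 1 ≤ q) (k : ℤ) (hk : |k| ≤ ((q / 2 : ℕ) : ℤ)) :
    |(k : ℝ)| / (2 * q - 1) + 2 / q * cs q k ≤ 1 := by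
  have hqR : (1 : ℝ) ≤ q := by exact_mod_cast hq
  have h2q : (0 : ℝ) < 2 * q - 1 := by linarith
  have hq0 : (0 : ℝ) < q := by linarith
  have hk2 : 2 * |k| ≤ q := by omega
  rcases hk2.eq_or_lt with h | h
  · have h1 := cs_upper_half q hq k h
    have h2 : 2 * |(k : ℝ)| = q := by exact_mod_cast h
    have h3 : 2 / (q : ℝ) * cs q k ≤ 1 / 2 := by
      calc 2 / (q : ℝ) * cs q k ≤ 2 / q * (q / 4) := mul_le_mul_of_nonneg_left h1 (by positivity)
        _ = 1 / 2 := by field_simp; norm_num
    have h4 : |(k : ℝ)| / (2 * q - 1) ≤ 1 / 2 := by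
      rw [div_le_iff₀ h2q]; linarith
    linarith
  · have h1 := cs_upper q hq k
    have h2 : 2 * |(k : ℝ)| ≤ q - 1 := by
      have : 2 * |k| ≤ q - 1 := by omega
      exact_mod_cast this
    have h3 : 2 / (q : ℝ) * cs q k ≤ 1 / 2 + |(k : ℝ)| / (2 * q) := by
      calc 2 / (q : ℝ) * cs q k ≤ 2 / q * ((q + |(k : ℝ)|) / 4) :=
            mul_le_mul_of_nonneg_left h1 (by positivity)
        _ = 1 / 2 + |(k : ℝ)| / (2 * q) := by field_simp; ring
    have h4 : |(k : ℝ)| / (2 * q - 1) ≤ 1 / 4 := by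
      rw [div_le_iff₀ h2q]; linarith
    have h5 : |(k : ℝ)| / (2 * q) ≤ 1 / 4 := by
      rw [div_le_iff₀ (by linarith)]; linarith
    linarith

lemma round_norm (y : ℝ) : |(-(round y : ℤ) : ℝ) + y| = ‖((y : ℝ) : UnitAddCircle)‖ := by
  rw [UnitAddCircle.norm_eq]
  congr 1
  ring

/-- Points on the levels of `x 0`. -/
lemma level0 (q : ℕ) (hq : 1 ≤ q) (hdq : 2 * q ≤ d) (k : ℤ) (hk : |k| ≤ ((q / 2 : ℕ) : ℤ)) :
    ∑ i, wgt d q i * |shf hd q (fun i => if (i : ℕ) = 0 then (k : ℝ) else
      if (i : ℕ) = 1 then 0 else (-(round (al q i * k) : ℤ) : ℝ)) i| ≤ 1 := by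
  classical
  have hqR : (1 : ℝ) ≤ q := by exact_mod_cast hq
  have hterm : ∀ i : Fin d, wgt d q i * |shf hd q (fun i => if (i : ℕ) = 0 then (k : ℝ) else
      if (i : ℕ) = 1 then 0 else (-(round (al q i * k) : ℤ) : ℝ)) i| ≤
      (if i = c0 hd then |(k : ℝ)| / (2 * q - 1) else 0) +
      2 / q * ‖((al q i * k : ℝ) : UnitAddCircle)‖ := by
    intro i
    rw [shf_apply, wgt]
    simp only [c0_val, c1_val, if_true, one_ne_zero, if_false, mul_zero, add_zero]
    rcases lt_or_ge (i : ℕ) 2 with hi | hi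
    · rw [al_small q i hi, if_pos hi]
      rcases c_cases hd i hi with rfl | rfl
      · simp only [c0_val, if_true, zero_mul, add_zero, AddCircle.coe_zero, norm_zero, mul_zero]
        exact le_of_eq (by ring)
      · simp [c1_val, (c01 hd).symm]
    · rw [if_neg (by omega : ¬ (i : ℕ) = 0), if_neg (by omega : ¬ (i : ℕ) = 1), if_neg (by omega),
        if_neg (by rintro rfl; rw [c0_val] at hi; omega), round_norm, zero_add]
  refine (Finset.sum_le_sum (fun i _ => hterm i)).trans ?_
  rw [Finset.sum_add_distrib, Finset.sum_ite_eq', if_pos (Finset.mem_univ _), ← Finset.mul_sum,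
    sum_al d q hq hdq]
  exact level_arith q hq k hk

/-- Points on the levels of `x 1`. -/
lemma level1 (q : ℕ) (hq : 1 ≤ q) (hdq : 2 * q ≤ d) (k : ℤ) (hk : |k| ≤ ((q / 2 : ℕ) : ℤ)) :
    ∑ i, wgt d q i * |shf hd q (fun i => if (i : ℕ) = 1 then (k : ℝ) else
      if (i : ℕ) = 0 then 0 else (-(round (be q i * k) : ℤ) : ℝ)) i| ≤ 1 := by
  classical
  have hqR : (1 : ℝ) ≤ q := by exact_mod_cast hq
  have hterm : ∀ i : Fin d, wgt d q i * |shf hd q (fun i => if (i : ℕ) = 1 then (k : ℝ) else
      if (i : ℕ) = 0 then 0 else (-(round (be q i * k) : ℤ) : ℝ)) i| ≤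
      (if i = c1 hd then |(k : ℝ)| / (2 * q - 1) else 0) +
      2 / q * ‖((be q i * k : ℝ) : UnitAddCircle)‖ := by
    intro i
    rw [shf_apply, wgt]
    simp only [c0_val, c1_val, if_true, zero_ne_one, if_false, mul_zero, add_zero]
    rcases lt_or_ge (i : ℕ) 2 with hi | hi
    · rw [be_small q i hq hi, if_pos hi]
      rcases c_cases hd i hi with rfl | rfl
      · simp [c0_val, c01 hd]
      · simp only [c1_val, if_true, zero_mul, add_zero, AddCircle.coe_zero, norm_zero, mul_zero]
        exact le_of_eq (by ring)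
    · rw [if_neg (by omega : ¬ (i : ℕ) = 1), if_neg (by omega : ¬ (i : ℕ) = 0), if_neg (by omega),
        if_neg (by rintro rfl; rw [c1_val] at hi; omega), round_norm, zero_add]
  refine (Finset.sum_le_sum (fun i _ => hterm i)).trans ?_
  rw [Finset.sum_add_distrib, Finset.sum_ite_eq', if_pos (Finset.mem_univ _), ← Finset.mul_sum,
    sum_be d q hq hdq]
  exact level_arith q hq k hk

/-- Every direction needs at least `2 ⌊q / 2⌋ + 1` parallel hyperplanes. -/
lemma many (q : ℕ) (hq : 1 ≤ q) (hdq : 2 * q ≤ d) {M : ℕ}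
    (h : ParallelCoveredBy (integerPoints (body (wgt d q) (shf hd q))) M) :
    2 * (q / 2) + 1 ≤ M := by
  classical
  have hqR : (1 : ℝ) ≤ q := by exact_mod_cast hq
  have hq0 : (0 : ℝ) < q := by linarith
  refine card_le_of_parallel h (q / 2) ?_
  intro v hv
  by_cases hA : ∃ i : Fin d, 2 ≤ (i : ℕ) ∧ v i ≠ 0
  · obtain ⟨i, hi2, hi⟩ := hA
    have hsum : ∀ t : ℝ, ∑ j, v j * (Pi.single i t : Fin d → ℝ) j = v i * t := by
      intro t
      rw [Finset.sum_eq_single i (fun j _ hj => by rw [Pi.single_eq_of_ne hj, mul_zero])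
          (fun h => absurd (Finset.mem_univ i) h), Pi.single_eq_same]
    refine ⟨fun k => Pi.single i (k : ℝ), fun k hk => ⟨?_, fun j => ?_⟩, fun k l _ _ hkl => ?_⟩
    · rw [body, Set.mem_ofPred_eq]
      simp only []
      have hL : ∀ j, shf hd q (Pi.single i (k : ℝ)) j = (Pi.single i (k : ℝ) : Fin d → ℝ) j := by
        intro j
        have e0 : (Pi.single i (k : ℝ) : Fin d → ℝ) (c0 hd) = 0 :=
          Pi.single_eq_of_ne (by rintro rfl; rw [c0_val] at hi2; omega) _
        have e1 : (Pi.single i (k : ℝ) : Fin d → ℝ) (c1 hd) = 0 :=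
          Pi.single_eq_of_ne (by rintro rfl; rw [c1_val] at hi2; omega) _
        rw [shf_apply, e0, e1]
        ring
      simp only [hL]
      rw [Finset.sum_eq_single i (fun j _ hj => by rw [Pi.single_eq_of_ne hj, abs_zero, mul_zero])
          (fun h => absurd (Finset.mem_univ i) h), Pi.single_eq_same, wgt, if_neg (by omega)]
      have h2 : 2 * |(k : ℝ)| ≤ q := by
        have : 2 * |k| ≤ q := by omega
        exact_mod_cast this
      rw [div_mul_eq_mul_div, div_le_one hq0]
      exact h2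
    · by_cases hj : j = i
      · subst hj; exact ⟨k, by simp⟩
      · exact ⟨0, by simp [hj]⟩
    · rw [hsum, hsum] at hkl
      exact_mod_cast mul_left_cancel₀ hi hkl
  · push Not at hA
    by_cases h0 : v (c0 hd) = 0
    · have h1 : v (c1 hd) ≠ 0 := by
        intro h1
        apply hv
        ext i
        rcases lt_or_ge (i : ℕ) 2 with hi | hi
        · rcases c_cases hd i hi with h | h
          · rw [h, h0]; rfl
          · rw [h, h1]; rfl
        · exact hA i hi
      have hsum : ∀ f : Fin d → ℝ, ∑ j, v j * f j = v (c1 hd) * f (c1 hd) := by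
        intro f
        refine Finset.sum_eq_single _ (fun j _ hj => ?_) (fun h => absurd (Finset.mem_univ _) h)
        have : v j = 0 := by
          rcases lt_or_ge (j : ℕ) 2 with hi | hi
          · rcases c_cases hd j hi with h | h
            · rw [h, h0]
            · exact absurd h hj
          · exact hA j hi
        rw [this, zero_mul]
      refine ⟨fun k i => if (i : ℕ) = 1 then (k : ℝ) else
        if (i : ℕ) = 0 then 0 else (-(round (be q i * k) : ℤ) : ℝ), fun k hk => ⟨?_, fun j => ?_⟩,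
        fun k l _ _ hkl => ?_⟩
      · exact level1 hd q hq hdq k hk
      · simp only []
        split_ifs
        · exact ⟨k, rfl⟩
        · exact ⟨0, by simp⟩
        · exact ⟨-round (be q j * k), by push_cast; rfl⟩
      · rw [hsum, hsum] at hkl
        simp only [c1_val, if_true] at hkl
        exact_mod_cast mul_left_cancel₀ h1 hkl
    · have hsum : ∀ f : Fin d → ℝ, f (c1 hd) = 0 →
          ∑ j, v j * f j = v (c0 hd) * f (c0 hd) := by
        intro f hf
        refine Finset.sum_eq_single _ (fun j _ hj => ?_) (fun h => absurd (Finset.mem_univ _) h)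
        rcases lt_or_ge (j : ℕ) 2 with hi | hi
        · rcases c_cases hd j hi with h | h
          · exact absurd h hj
          · rw [h, hf, mul_zero]
        · rw [hA j hi, zero_mul]
      refine ⟨fun k i => if (i : ℕ) = 0 then (k : ℝ) else
        if (i : ℕ) = 1 then 0 else (-(round (al q i * k) : ℤ) : ℝ), fun k hk => ⟨?_, fun j => ?_⟩,
        fun k l _ _ hkl => ?_⟩
      · exact level0 hd q hq hdq k hk
      · simp only []
        split_ifs
        · exact ⟨k, rfl⟩
        · exact ⟨0, by simp⟩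
        · exact ⟨-round (al q j * k), by push_cast; rfl⟩
      · rw [hsum _ (by simp [c1_val]), hsum _ (by simp [c1_val])] at hkl
        simp only [c0_val, if_true] at hkl
        exact_mod_cast mul_left_cancel₀ h0 hkl

end

/-- The lower bound for every class of bodies which contains the body above. -/
theorem lower_gen (d : ℕ) (hd : 2 ≤ d) (q : ℕ) (hq1 : 1 ≤ q) (hdq : 2 * q ≤ d)
    (P : Set (Fin d → ℝ) → Prop) (hP : P (body (wgt d q) (shf hd q))) (c : ℝ)
    (hc : AdmissibleFor d P c) : ((2 * (q / 2) + 1 : ℕ) : ℝ) ≤ 2 * c := by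
  classical
  obtain ⟨M, hM, hp⟩ := hc.2 (body (wgt d q) (shf hd q)) hP
    (body_convex (wgt_pos q hq1)) (body_compact (wgt_pos q hq1) (shf_inj hd q hq1))
    body_interior 2 (by norm_num) ⟨![Pi.single (c0 hd) 1, Pi.single (c1 hd) 1],
      fun _ => 0, by
      intro j h0
      fin_cases j
      · have := congrFun h0 (c0 hd)
        simp at this
      · have := congrFun h0 (c1 hd)
        simp at this, by
      intro x hx
      obtain ⟨hxK, hxi⟩ := hx
      choose z hz using hxi
      have hx' : x = fun i => (z i : ℝ) := funext hz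
      rw [body, Set.mem_ofPred_eq, hx'] at hxK
      have hor : z (c0 hd) = 0 ∨ z (c1 hd) = 0 := by
        by_contra hcon
        push Not at hcon
        exact absurd hxK (not_le.2 (hole hd q hq1 hdq z hcon.1 hcon.2))
      rcases hor with h | h
      · refine Set.mem_iUnion.2 ⟨0, ?_⟩
        rw [hyperplane, Set.mem_ofPred_eq]
        simp only [Matrix.cons_val_zero]
        rw [Finset.sum_eq_single (c0 hd) (fun j _ hj => by
          rw [Pi.single_eq_of_ne hj, zero_mul]) (fun h => absurd (Finset.mem_univ _) h),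
          Pi.single_eq_same, hz, h]
        simp
      · refine Set.mem_iUnion.2 ⟨1, ?_⟩
        rw [hyperplane, Set.mem_ofPred_eq]
        simp only [Matrix.cons_val_one, Matrix.cons_val_fin_one]
        rw [Finset.sum_eq_single (c1 hd) (fun j _ hj => by
          rw [Pi.single_eq_of_ne hj, zero_mul]) (fun h => absurd (Finset.mem_univ _) h),
          Pi.single_eq_same, hz, h]
        simp⟩
  have h1 := many hd q hq1 hdq hp
  have h2 : ((2 * (q / 2) + 1 : ℕ) : ℝ) ≤ M := by exact_mod_cast h1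
  push_cast at hM h2 ⊢
  linarith

end Pool.Agent.Work.MP_b10815_sym
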