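import Pool.Agent.Work.MP_b10815_sym.Cross

set_option autoImplicit false

namespace Pool.Agent.Work.MP_b10815_sym

open Pool.Agent.Work.MP_b10815_co

/-! ### Unconditional convex bodies contain cross-polytopes -/

lemma uncond_zero {d : ℕ} {K : Set (Fin d → ℝ)} (hU : Uncond K) (hK : Convex ℝ K)
    {x : Fin d → ℝ} (hx : x ∈ K) (s : Finset (Fin d)) : (fun j => if j ∈ s then 0 else x j) ∈ K := by
  classical
  induction s using Finset.induction_on with
  | empty => simpa using hx
  | insert i s hi ih =>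
    have h1 := hU _ ih i
    have h2 := hK ih h1 (by norm_num : (0 : ℝ) ≤ 1 / 2) (by norm_num : (0 : ℝ) ≤ 1 / 2) (by norm_num)
    convert h2 using 1
    ext j
    by_cases hj : j = i
    · subst hj
      simp [hi]
    · simp only [Finset.mem_insert, hj, false_or, Pi.add_apply, Pi.smul_apply, smul_eq_mul,
        Function.update_of_ne hj]
      ring

lemma uncond_single {d : ℕ} {K : Set (Fin d → ℝ)} (hU : Uncond K) (hK : Convex ℝ K)
    {x : Fin d → ℝ} (hx : x ∈ K) (i : Fin d) : (Pi.single i (x i) : Fin d → ℝ) ∈ K := by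
  have h := uncond_zero hU hK hx (Finset.univ.erase i)
  convert h using 1
  ext j
  by_cases hj : j = i
  · subst hj; simp
  · simp [hj]

lemma uncond_single_neg {d : ℕ} {K : Set (Fin d → ℝ)} (hU : Uncond K) (hK : Convex ℝ K)
    {x : Fin d → ℝ} (hx : x ∈ K) (i : Fin d) : (Pi.single i (-x i) : Fin d → ℝ) ∈ K := by
  have h := uncond_single hU hK (hU x hx i) i
  simpa using h

/-- Points of the cross-polytope. -/
lemma uncond_cross {d : ℕ} {K : Set (Fin d → ℝ)} (hU : Uncond K) (hK : Convex ℝ K)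
    (m : ℕ) (hd : 1 ≤ d) (hm : ∀ i, ∃ x ∈ K, (m : ℝ) ≤ x i) (z : Fin d → ℤ)
    (hz : ∑ i, |z i| ≤ m) : (fun i => (z i : ℝ)) ∈ K := by
  classical
  -- `t e_i ∈ K` for `|t| ≤ m`
  have h1 : ∀ i, ∀ t : ℝ, |t| ≤ m → (Pi.single i t : Fin d → ℝ) ∈ K := by
    intro i t ht
    obtain ⟨x, hx, hxm⟩ := hm i
    have ha := uncond_single hU hK hx i
    have hb := uncond_single_neg hU hK hx i
    have hxi : 0 ≤ x i := (Nat.cast_nonneg m).trans hxm
    rcases hxi.eq_or_lt with h0 | hpos
    · have : t = 0 := by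
        have : |t| ≤ 0 := ht.trans (hxm.trans h0.symm.le)
        exact abs_eq_zero.1 (le_antisymm this (abs_nonneg _))
      rw [this, h0]; exact ha
    · have ht' := abs_le.1 (ht.trans hxm)
      have hc := hK ha hb (a := (1 + t / x i) / 2) (b := (1 - t / x i) / 2) (by
        have : -1 ≤ t / x i := by rw [le_div_iff₀ hpos]; linarith
        linarith) (by
        have : t / x i ≤ 1 := by rw [div_le_iff₀ hpos]; linarith
        linarith) (by ring)
      convert hc using 1
      ext j
      by_cases hj : j = i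
      · subst hj
        simp only [Pi.single_eq_same, Pi.add_apply, Pi.smul_apply, smul_eq_mul]
        field_simp
        ring
      · simp [hj]
  rcases Nat.eq_zero_or_pos m with hm0 | hm0
  · have hz0 : ∀ i, z i = 0 := by
      intro i
      have : |z i| ≤ ∑ i, |z i| := Finset.single_le_sum (fun i _ => abs_nonneg (z i)) (Finset.mem_univ i)
      have h2 : |z i| ≤ 0 := by rw [hm0] at hz; exact_mod_cast this.trans hz
      exact abs_eq_zero.1 (le_antisymm h2 (abs_nonneg _))
    have := h1 ⟨0, hd⟩ 0 (by simp)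
    rw [Pi.single_zero] at this
    convert this using 1
    ext i
    simp [hz0 i]
  · have hmR : (0 : ℝ) < m := by exact_mod_cast hm0
    have hzR : ∑ i, |(z i : ℝ)| ≤ m := by exact_mod_cast hz
    let w : Option (Fin d) → ℝ := fun o => o.elim (1 - ∑ i, |(z i : ℝ)| / m) (fun i => |(z i : ℝ)| / m)
    let p : Option (Fin d) → (Fin d → ℝ) := fun o => o.elim 0 (fun i => Pi.single i (SignType.sign (z i : ℝ) * m))
    have hmem := hK.sum_mem (t := (Finset.univ : Finset (Option (Fin d)))) (w := w) (z := p) (by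
      intro o _
      rcases o with _ | i
      · simp only [w, Option.elim_none]
        rw [← Finset.sum_div, sub_nonneg, div_le_one hmR]
        exact hzR
      · simp only [w, Option.elim_some]
        positivity) (by
      rw [Fintype.sum_option]
      simp [w]) (by
      intro o _
      rcases o with _ | i
      · simp only [p, Option.elim_none]
        have := h1 ⟨0, hd⟩ 0 (by simp)
        rwa [Pi.single_zero] at this
      · simp only [p, Option.elim_some]
        refine h1 i _ ?_
        rw [abs_mul, abs_of_pos hmR]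
        rcases lt_trichotomy (z i : ℝ) 0 with h | h | h
        · simp [sign_neg h]
        · simp [h]
        · simp [sign_pos h])
    convert hmem using 1
    ext i
    rw [Fintype.sum_option]
    simp only [w, p, Option.elim_none, Option.elim_some, smul_zero, zero_add, Finset.sum_apply,
      Pi.smul_apply, smul_eq_mul]
    rw [Finset.sum_eq_single i]
    · rw [Pi.single_eq_same]
      have := abs_mul_sign (z i : ℝ)
      field_simp
      linarith [abs_mul_sign (z i : ℝ)]
    · intro j _ hj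
      rw [Pi.single_eq_of_ne hj.symm, mul_zero]
    · intro h; exact absurd (Finset.mem_univ i) h

/-- The arithmetic of the upper bound. -/
lemma arith_upper (d m N : ℕ) (hd : 1 ≤ d) (h : 2 * m + 2 ≤ N + min d (m + 1)) :
    ((2 * m + 1 : ℕ) : ℝ) ≤ (2 - 1 / (d : ℝ)) * N := by
  have hdR : (1 : ℝ) ≤ d := by exact_mod_cast hd
  have hd0 : (0 : ℝ) < d := by linarith
  have hkey : ((2 * m + 1 : ℕ) : ℝ) * d ≤ (2 * d - 1) * N := by
    rcases le_total (m + 1) d with hmd | hmd
    · rw [min_eq_right hmd] at h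
      have hN : ((m : ℝ) + 1) ≤ N := by exact_mod_cast (by omega : m + 1 ≤ N)
      have hmd' : ((m : ℝ) + 1) ≤ d := by exact_mod_cast hmd
      push_cast
      nlinarith [mul_le_mul_of_nonneg_left hN (by linarith : (0 : ℝ) ≤ 2 * d - 1)]
    · rw [min_eq_left hmd] at h
      have hN : 2 * (m : ℝ) + 2 ≤ N + d := by exact_mod_cast h
      have hmd' : (d : ℝ) ≤ (m : ℝ) + 1 := by exact_mod_cast hmd
      push_cast
      nlinarith [mul_le_mul_of_nonneg_left (by linarith : 2 * (m : ℝ) + 2 - d ≤ N)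
        (by linarith : (0 : ℝ) ≤ 2 * d - 1), mul_nonneg (by linarith : (0 : ℝ) ≤ (d : ℝ) - 1)
        (by linarith : (0 : ℝ) ≤ (m : ℝ) + 1 - d)]
  have : (2 - 1 / (d : ℝ)) * N = (2 * d - 1) * N / d := by field_simp
  rw [this, le_div_iff₀ hd0]
  exact hkey

/-- The upper bound for unconditional bodies. -/
theorem uncond_upper (d : ℕ) (hd : 1 ≤ d) (K : Set (Fin d → ℝ)) (hU : Uncond K)
    (hK : Convex ℝ K) (hc : IsCompact K) (hne : K.Nonempty) (N : ℕ)
    (hN : CoveredBy (integerPoints K) N) :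
    ∃ M : ℕ, (M : ℝ) ≤ (2 - 1 / (d : ℝ)) * N ∧ ParallelCoveredBy (integerPoints K) M := by
  classical
  have hmax : ∀ i : Fin d, ∃ p ∈ K, ∀ x ∈ K, x i ≤ p i := by
    intro i
    obtain ⟨p, hp, h⟩ := hc.exists_isMaxOn hne (continuous_apply i).continuousOn
    exact ⟨p, hp, fun x hx => h hx⟩
  choose p hpK hp using hmax
  have hnn : ∀ i, 0 ≤ p i i := by
    intro i
    obtain ⟨x, hx⟩ := hne
    have h1 := hp i x hx
    have h2 := hp i _ (hU x hx i)
    rw [Function.update_self] at h2
    linarith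
  obtain ⟨i₀, -, hi₀⟩ := Finset.exists_min_image (Finset.univ : Finset (Fin d))
    (fun i => ⌊p i i⌋₊) ⟨⟨0, hd⟩, Finset.mem_univ _⟩
  set m := ⌊p i₀ i₀⌋₊ with hm
  have hmi : ∀ i, ∃ x ∈ K, (m : ℝ) ≤ x i := by
    intro i
    refine ⟨p i, hpK i, ?_⟩
    have h1 : m ≤ ⌊p i i⌋₊ := hi₀ i (Finset.mem_univ i)
    have h2 : ((⌊p i i⌋₊ : ℕ) : ℝ) ≤ p i i := Nat.floor_le (hnn i)
    have h3 : (m : ℝ) ≤ (⌊p i i⌋₊ : ℕ) := by exact_mod_cast h1
    linarith
  obtain ⟨u, b, hu, hcov⟩ := hN
  have hcc := cover_cross d m (Finset.univ : Finset (Fin N)) u b (fun j _ => hu j) (by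
    intro z hz
    have hzK := uncond_cross hU hK m hd hmi z hz
    have := hcov (show (fun i => (z i : ℝ)) ∈ integerPoints K from ⟨hzK, fun i => ⟨z i, rfl⟩⟩)
    obtain ⟨j, hj⟩ := Set.mem_iUnion.1 this
    exact ⟨j, Finset.mem_univ j, hj⟩)
  rw [Finset.card_univ, Fintype.card_fin] at hcc
  refine ⟨2 * m + 1, arith_upper d m N hd hcc, Pi.single i₀ 1, fun j => (j : ℝ) - m, ?_, ?_⟩
  · intro h0
    have := congrFun h0 i₀
    simp at this
  · intro x hx
    obtain ⟨hxK, hxi⟩ := hx
    obtain ⟨k, hk⟩ := hxi i₀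
    have h1 : (k : ℝ) ≤ p i₀ i₀ := hk ▸ hp i₀ x hxK
    have h2 : (-k : ℝ) ≤ p i₀ i₀ := by
      have := hp i₀ _ (hU x hxK i₀)
      rw [Function.update_self, hk] at this
      exact this
    have h1' : k ≤ m := by
      rcases le_or_gt k 0 with h0 | h0
      · exact h0.trans (Int.natCast_nonneg m)
      · lift k to ℕ using h0.le
        have : k ≤ m := Nat.le_floor (by exact_mod_cast h1)
        exact_mod_cast this
    have h2' : -k ≤ m := by
      rcases le_or_gt (-k) 0 with h0 | h0
      · exact h0.trans (Int.natCast_nonneg m)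
      · obtain ⟨l, hl⟩ := Int.eq_ofNat_of_zero_le h0.le
        have h3 : ((l : ℕ) : ℝ) ≤ p i₀ i₀ := by
          have : ((l : ℤ) : ℝ) = -k := by rw [← hl]; push_cast; ring
          have h4 : ((l : ℕ) : ℝ) = ((l : ℤ) : ℝ) := by push_cast; rfl
          rw [h4, this]; exact h2
        have : l ≤ m := Nat.le_floor h3
        rw [hl]; exact_mod_cast this
    have h3 : 0 ≤ k + m := by linarith
    obtain ⟨l, hl⟩ := Int.eq_ofNat_of_zero_le h3
    have hlt : l < 2 * m + 1 := by
      have : (l : ℤ) < 2 * m + 1 := by rw [← hl]; linarith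
      exact_mod_cast this
    refine Set.mem_iUnion.2 ⟨⟨l, hlt⟩, ?_⟩
    simp only [hyperplane, Set.mem_ofPred_eq]
    rw [Finset.sum_eq_single i₀]
    · rw [Pi.single_eq_same, one_mul, hk]
      have : ((l : ℤ) : ℝ) = k + m := by rw [← hl]; push_cast; ring
      have h4 : ((l : ℕ) : ℝ) = ((l : ℤ) : ℝ) := by push_cast; rfl
      rw [h4, this]; ring
    · intro j _ hj
      rw [Pi.single_eq_of_ne hj, zero_mul]
    · intro h; exact absurd (Finset.mem_univ i₀) h

end Pool.Agent.Work.MP_b10815_sym
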